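import Pool.Agent.H96.VAR.Tab

/-!
# Two orthogonal latin squares of every order except 2 and 6

Fields and products give all orders which are not 2 modulo 4, Wilson's construction gives
the rest from orders 10 and 14.
-/

namespace Pool.VarCube

open Function

lemma oa_fin_of_card {κ S : Type} [Fintype S] {n : ℕ} (h : OA κ S) (hn : Fintype.card S = n) :
    OA κ (Fin n) := h.equiv (Fintype.equivFinOfCardEq hn)

/-- Prime powers: at most `q + 1` columns. -/
lemma oa_primePow {p k c : ℕ} (hp : p.Prime) (hk : k ≠ 0) (hc : c ≤ p ^ k + 1) :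
    OA (Fin c) (Fin (p ^ k)) := by
  classical
  have : Fact p.Prime := ⟨hp⟩
  have hcard : Nat.card (GaloisField p k) = p ^ k := GaloisField.card p k hk
  have : Fintype (GaloisField p k) := Fintype.ofFinite _
  have hcard' : Fintype.card (GaloisField p k) = p ^ k := by
    rw [← Nat.card_eq_fintype_card, hcard]
  have h1 := oa_fin_of_card (oa_field (GaloisField p k)) hcard'
  have h2 : Fintype.card (Option (GaloisField p k)) = p ^ k + 1 := by
    rw [Fintype.card_option, hcard']
  let e := Fintype.equivFinOfCardEq h2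
  exact h1.restrict (fun i : Fin c => e.symm (Fin.castLE hc i))
    (e.symm.injective.comp (Fin.castLE_injective hc))

lemma oa_mul {κ : Type} {a b : ℕ} (ha : OA κ (Fin a)) (hb : OA κ (Fin b)) :
    OA κ (Fin (a * b)) :=
  oa_fin_of_card (ha.prod hb) (by simp)

/-- Four columns for every order which is not 2 modulo 4. -/
theorem oa_four : ∀ n : ℕ, 1 ≤ n → n % 4 ≠ 2 → OA (Fin 4) (Fin n) := by
  intro n
  induction n using Nat.recOnPosPrimePosCoprime with
  | prime_pow p k hp hk =>
    intro _ h4
    refine oa_primePow hp (by omega) ?_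
    by_contra hlt
    have h1 : p ^ k < 3 := by omega
    have h2 : 2 ≤ p := hp.two_le
    have h3 : p ≤ p ^ k := Nat.le_self_pow (by omega) p
    have h4' : p ^ k = 2 := by omega
    rw [h4'] at h4
    exact h4 rfl
  | zero => intro h; omega
  | one => intro _ _; exact oa_one _
  | coprime a b ha hb hab iha ihb =>
    intro _ h4
    have hodd : a % 2 = 1 ∨ b % 2 = 1 := by
      by_contra hcon
      have h1 : 2 ∣ a := by omega
      have h2 : 2 ∣ b := by omega
      have h3 := Nat.dvd_gcd h1 h2
      rw [hab] at h3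
      omega
    refine oa_mul (iha (by omega) ?_) (ihb (by omega) ?_)
    · intro h5
      apply h4
      have hb2 : b % 2 = 1 := by omega
      rw [Nat.mul_mod, h5]
      have : b % 4 = 1 ∨ b % 4 = 3 := by omega
      rcases this with h | h <;> rw [h]
    · intro h5
      apply h4
      have ha2 : a % 2 = 1 := by omega
      rw [Nat.mul_mod, h5]
      have : a % 4 = 1 ∨ a % 4 = 3 := by omega
      rcases this with h | h <;> rw [h]

/-- Five columns (indeed six) for every order prime to 6. -/
theorem oa_five : ∀ n : ℕ, 1 ≤ n → n % 2 = 1 → n % 3 ≠ 0 → OA (Fin 5) (Fin n) := by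
  intro n
  induction n using Nat.recOnPosPrimePosCoprime with
  | prime_pow p k hp hk =>
    intro _ h2 h3
    refine oa_primePow hp (by omega) ?_
    have hp2 : p ≠ 2 := by
      rintro rfl
      have : 2 ∣ 2 ^ k := dvd_pow_self 2 (by omega)
      omega
    have hp3 : p ≠ 3 := by
      rintro rfl
      have : 3 ∣ 3 ^ k := dvd_pow_self 3 (by omega)
      omega
    have h4 : 2 ≤ p := hp.two_le
    have hle : p ≤ p ^ k := Nat.le_self_pow (by omega) p
    omega
  | zero => intro h; omega
  | one => intro _ _ _; exact oa_one _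
  | coprime a b ha hb hab iha ihb =>
    intro _ h2 h3
    refine oa_mul (iha (by omega) ?_ ?_) (ihb (by omega) ?_ ?_)
    · by_contra hcon
      have h1 : 2 ∣ a := by omega
      have := Dvd.dvd.mul_right h1 b
      omega
    · intro hcon
      have h1 : 3 ∣ a := by omega
      have := Dvd.dvd.mul_right h1 b
      omega
    · by_contra hcon
      have h1 : 2 ∣ b := by omega
      have := Dvd.dvd.mul_left h1 a
      omega
    · intro hcon
      have h1 : 3 ∣ b := by omega
      have := Dvd.dvd.mul_left h1 a
      omega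

/-- Wilson's construction with weight three. -/
lemma oa_wil {t u : ℕ} (ht : 1 ≤ t) (ht2 : t % 2 = 1) (ht3 : t % 3 ≠ 0) (hut : u ≤ t)
    (hu : 1 ≤ u) (hu2 : u % 4 ≠ 2) : OA (Fin 4) (Fin (3 * t + u)) := by
  have h5 : OA (Option (Fin 4)) (Fin t) :=
    (oa_five t ht ht2 ht3).restrict (finSuccEquiv 4).symm (finSuccEquiv 4).symm.injective
  have hP : OA (Fin 4) (Fin 3) := oa_four 3 (by norm_num) (by norm_num)
  have hQ : OA (Fin 4) (Option (Fin 3)) :=
    (oa_four 4 (by norm_num) (by norm_num)).equiv (finSuccEquiv 3)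
  have hR : OA (Fin 4) (Fin u) := oa_four u hu hu2
  have h := oa_wilson (κ := Fin 4) ⟨0, 1, by decide⟩ h5 hP hQ hR (Fin.castLE hut)
    (Fin.castLE_injective hut)
  exact oa_fin_of_card h (by simp [mul_comm])

/-- Bose, Shrikhande and Parker: two orthogonal latin squares of every order `n ≥ 3`,
`n ≠ 6`. -/
theorem oa_bsp (n : ℕ) (hn : 3 ≤ n) (h6 : n ≠ 6) : OA (Fin 4) (Fin n) := by
  by_cases h4 : n % 4 = 2
  swap
  · exact oa_four n (by omega) h4
  by_cases h50 : 46 ≤ n
  · obtain ⟨t, ht1, ht2, ht3, ht4⟩ : ∃ t, t % 2 = 1 ∧ t % 3 ≠ 0 ∧ (n + 2) / 4 ≤ t ∧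
        t ≤ (n + 2) / 4 + 3 := by
      have h := Nat.mod_lt ((n + 2) / 4) (show 0 < 6 by norm_num)
      set s := (n + 2) / 4 with hs
      have h6 : s % 6 = 0 ∨ s % 6 = 1 ∨ s % 6 = 2 ∨ s % 6 = 3 ∨ s % 6 = 4 ∨ s % 6 = 5 := by
        omega
      rcases h6 with h | h | h | h | h | h
      · exact ⟨s + 1, by omega, by omega, by omega, by omega⟩
      · exact ⟨s, by omega, by omega, by omega, by omega⟩
      · exact ⟨s + 3, by omega, by omega, by omega, by omega⟩
      · exact ⟨s + 2, by omega, by omega, by omega, by omega⟩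
      · exact ⟨s + 1, by omega, by omega, by omega, by omega⟩
      · exact ⟨s, by omega, by omega, by omega, by omega⟩
    have h := oa_wil (t := t) (u := n - 3 * t) (by omega) ht1 ht2 (by omega) (by omega)
      (by omega)
    rwa [show 3 * t + (n - 3 * t) = n by omega] at h
  · have hcases : n = 10 ∨ n = 14 ∨ n = 18 ∨ n = 22 ∨ n = 26 ∨ n = 30 ∨ n = 34 ∨ n = 38 ∨
        n = 42 := by omega
    rcases hcases with rfl | rfl | rfl | rfl | rfl | rfl | rfl | rfl | rfl
    · exact oa_A
    · exact oa_B
    · exact oa_wil (t := 5) (u := 3) (by norm_num) (by norm_num) (by norm_num) (by norm_num)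
        (by norm_num) (by norm_num)
    · exact oa_wil (t := 7) (u := 1) (by norm_num) (by norm_num) (by norm_num) (by norm_num)
        (by norm_num) (by norm_num)
    · exact oa_wil (t := 7) (u := 5) (by norm_num) (by norm_num) (by norm_num) (by norm_num)
        (by norm_num) (by norm_num)
    · exact oa_mul (a := 3) (b := 10) (oa_four 3 (by norm_num) (by norm_num)) oa_A
    · exact oa_wil (t := 11) (u := 1) (by norm_num) (by norm_num) (by norm_num) (by norm_num)
        (by norm_num) (by norm_num)
    · exact oa_wil (t := 11) (u := 5) (by norm_num) (by norm_num) (by norm_num) (by norm_num)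
        (by norm_num) (by norm_num)
    · exact oa_wil (t := 11) (u := 9) (by norm_num) (by norm_num) (by norm_num) (by norm_num)
        (by norm_num) (by norm_num)

end Pool.VarCube
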