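import Mathlib

/-!
# Variational sets of permutation cubes

Basic definitions, passage to another index set, restriction to fewer cubes, and the upper
bound: if the order n satisfies 2 ≤ n ≤ m, then a variational set of m-dimensional
permutation cubes of order n has at most m + 1 members.
-/

namespace Pool.VarCube

open Function

/-- An `ι`-dimensional permutation cube over the symbols `α`: along every line parallel to
a coordinate axis the values form a permutation of `α`.  With `ι = Fin m`, `α = Fin n` this
is an m-dimensional permutation cube of order n. -/
def IsPermCube {ι α : Type} [DecidableEq ι] (C : (ι → α) → α) : Prop :=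
  ∀ (x : ι → α) (i : ι), Bijective fun a : α => C (update x i a)

/-- A variational set: a family of permutation cubes, indexed by `κ`, such that any family
of them with distinct indices, as many as there are coordinates, is jointly a bijection of
the set of cells with the set of tuples of symbols. -/
def IsVarSet {ι α κ : Type} [DecidableEq ι] (C : κ → (ι → α) → α) : Prop :=
  (∀ j, IsPermCube (C j)) ∧
    ∀ e : ι → κ, Injective e → Bijective fun (x : ι → α) (i : ι) => C (e i) x

/-- Restriction of a variational set to an injective family of indices. -/
lemma IsVarSet.restrict {ι α κ κ' : Type} [DecidableEq ι] {C : κ → (ι → α) → α}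
    (h : IsVarSet C) (g : κ' → κ) (hg : Injective g) : IsVarSet fun j => C (g j) :=
  ⟨fun _ => h.1 _, fun e he => h.2 (fun i => g (e i)) (hg.comp he)⟩

/-- The upper bound: more than `m + 1` cubes force `m ≤ n - 1`. -/
theorem card_le {m n : ℕ} (hn : 2 ≤ n) (hnm : n ≤ m)
    (C : Fin (m + 2) → (Fin m → Fin n) → Fin n) : ¬ IsVarSet C := by
  intro h
  have : NeZero n := ⟨by omega⟩
  have : NeZero m := ⟨by omega⟩
  -- the two extra indices
  set p : Fin (m + 2) := ⟨m, by omega⟩ with hp
  set q : Fin (m + 2) := ⟨m + 1, by omega⟩ with hq
  set g : Fin m → Fin (m + 2) := fun i => ⟨i.1, by omega⟩ with hg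
  have hgi : Injective g := by
    intro a b hab
    simp only [hg, Fin.mk.injEq] at hab
    exact Fin.ext hab
  have hgp : ∀ i, g i ≠ p := by
    intro i hi
    simp only [hg, hp, Fin.mk.injEq] at hi
    exact absurd i.2 (by omega)
  have hgq : ∀ i, g i ≠ q := by
    intro i hi
    simp only [hg, hq, Fin.mk.injEq] at hi
    exact absurd i.2 (by omega)
  have hpq : p ≠ q := by
    intro hi
    simp only [hp, hq, Fin.mk.injEq] at hi
    omega
  let x0 : Fin m → Fin n := fun _ => 0
  let z : Fin (m + 2) → Fin n := fun j => C j x0
  -- the words of the first m coordinates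
  have hb := h.2 g hgi
  -- one replaced index
  have one : ∀ (j : Fin m) (r : Fin (m + 2)), (∀ i, g i ≠ r) → ∀ x y : Fin m → Fin n,
      (∀ i, i ≠ j → C (g i) x = C (g i) y) → C r x = C r y → x = y := by
    intro j r hr x y hxy hrx
    have he : Injective (update g j r) := by
      intro a b hab
      by_cases ha : a = j
      · by_cases hb' : b = j
        · rw [ha, hb']
        · rw [ha, update_self, update_of_ne hb'] at hab
          exact absurd hab.symm (hr b)
      · by_cases hb' : b = j
        · rw [hb', update_self, update_of_ne ha] at hab
          exact absurd hab (hr a)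
        · rw [update_of_ne ha, update_of_ne hb'] at hab
          exact hgi hab
    refine (h.2 _ he).1 ?_
    funext i
    by_cases hi : i = j
    · subst hi
      simpa using hrx
    · simp only [update_of_ne hi]
      exact hxy i hi
  -- two replaced indices
  have two : ∀ (j j' : Fin m), j ≠ j' → ∀ x y : Fin m → Fin n,
      (∀ i, i ≠ j → i ≠ j' → C (g i) x = C (g i) y) → C p x = C p y → C q x = C q y →
      x = y := by
    intro j j' hjj x y hxy hpx hqx
    have he : Injective (update (update g j p) j' q) := by
      intro a b hab
      by_cases ha : a = j'
      · by_cases hb' : b = j'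
        · rw [ha, hb']
        · rw [ha, update_self, update_of_ne hb'] at hab
          by_cases hb2 : b = j
          · rw [hb2, update_self] at hab
            exact absurd hab.symm hpq
          · rw [update_of_ne hb2] at hab
            exact absurd hab.symm (hgq b)
      · by_cases hb' : b = j'
        · rw [hb', update_self, update_of_ne ha] at hab
          by_cases ha2 : a = j
          · rw [ha2, update_self] at hab
            exact absurd hab hpq
          · rw [update_of_ne ha2] at hab
            exact absurd hab (hgq a)
        · rw [update_of_ne ha, update_of_ne hb'] at hab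
          by_cases ha2 : a = j
          · by_cases hb2 : b = j
            · rw [ha2, hb2]
            · rw [ha2, update_self, update_of_ne hb2] at hab
              exact absurd hab.symm (hgp b)
          · by_cases hb2 : b = j
            · rw [hb2, update_self, update_of_ne ha2] at hab
              exact absurd hab (hgp a)
            · rw [update_of_ne ha2, update_of_ne hb2] at hab
              exact hgi hab
    refine (h.2 _ he).1 ?_
    funext i
    by_cases hi : i = j'
    · subst hi
      simpa using hqx
    · simp only [update_of_ne hi]
      by_cases hi2 : i = j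
      · subst hi2
        simpa using hpx
      · simp only [update_of_ne hi2]
        exact hxy i hi2 hi
  -- the words with one non zero coordinate among the first m
  have hex : ∀ (j : Fin m) (a : Fin n), ∃ x : Fin m → Fin n,
      C (g j) x = a ∧ ∀ i, i ≠ j → C (g i) x = z (g i) := by
    intro j a
    obtain ⟨x, hx⟩ := hb.2 (update (fun i => z (g i)) j a)
    refine ⟨x, ?_, ?_⟩
    · have := congrFun hx j
      simpa using this
    · intro i hi
      have := congrFun hx i
      simpa [update_of_ne hi] using this
  choose w hw1 hw2 using hex
  -- the injection
  let F : (Σ j : Fin m, {a : Fin n // a ≠ z (g j)}) →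
      {a : Fin n // a ≠ z p} × {a : Fin n // a ≠ z q} := fun s =>
    (⟨C p (w s.1 s.2.1), by
      intro hc
      have : w s.1 s.2.1 = x0 := one s.1 p hgp _ _ (fun i hi => hw2 s.1 s.2.1 i hi) hc
      apply s.2.2
      rw [← hw1 s.1 s.2.1, this]⟩,
     ⟨C q (w s.1 s.2.1), by
      intro hc
      have : w s.1 s.2.1 = x0 := one s.1 q hgq _ _ (fun i hi => hw2 s.1 s.2.1 i hi) hc
      apply s.2.2
      rw [← hw1 s.1 s.2.1, this]⟩)
  have hF : Injective F := by
    rintro ⟨j, a, ha⟩ ⟨j', a', ha'⟩ hab
    simp only [F, Prod.mk.injEq, Subtype.mk.injEq] at hab
    obtain ⟨h1, h2⟩ := hab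
    by_cases hj : j = j'
    · subst hj
      have : w j a = w j a' := one j p hgp _ _
        (fun i hi => by rw [hw2 j a i hi, hw2 j a' i hi]) h1
      have h3 : a = a' := by rw [← hw1 j a, this, hw1 j a']
      subst h3
      rfl
    · exfalso
      have h4 : w j a = w j' a' := two j j' hj _ _
        (fun i hi hi' => by rw [hw2 j a i hi, hw2 j' a' i hi']) h1 h2
      apply ha
      rw [← hw1 j a, h4]
      exact hw2 j' a' j hj
  have hc := Fintype.card_le_of_injective F hF
  have hs : ∀ a : Fin n, Fintype.card {b : Fin n // b ≠ a} = n - 1 := by
    intro a
    rw [Fintype.card_subtype_compl, Fintype.card_fin, Fintype.card_subtype_eq]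
  rw [Fintype.card_sigma, Fintype.card_prod] at hc
  simp only [hs, Finset.sum_const, Finset.card_univ, Fintype.card_fin, smul_eq_mul] at hc
  have h5 : 0 < n - 1 := by omega
  have h6 := Nat.le_of_mul_le_mul_right hc h5
  omega

end Pool.VarCube
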