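import Pool.Agent.H96.VAR.Path
import Pool.Agent.H96.VAR.Bsp

/-!
# Linear variational sets over fields, products, and the general lower bound

Over a field with `q` elements and for `3 ≤ m ≤ q`, `q ≥ 4`, the polynomials of degree at
most `m - 1` have a basis consisting of polynomials of exact degree `m - 1` without roots;
evaluation at the `q` points and at infinity gives `q + 1` cubes.
-/

namespace Pool.VarCube

open Function Polynomial

/-- There is a variational set of `k` cubes of dimension `m` and order `n`. -/
def Has (m n k : ℕ) : Prop := ∃ C : Fin k → (Fin m → Fin n) → Fin n, IsVarSet C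

lemma Has.mono {m n k k' : ℕ} (h : Has m n k) (hk : k' ≤ k) : Has m n k' := by
  obtain ⟨C, hC⟩ := h
  exact ⟨_, hC.restrict (Fin.castLE hk) (Fin.castLE_injective hk)⟩

/-- Any alphabet and any index set. -/
lemma has_of {m n k : ℕ} {α κ : Type} [Fintype α] [Fintype κ] (hα : Fintype.card α = n)
    (hκ : k ≤ Fintype.card κ) {C : κ → (Fin m → α) → α} (h : IsVarSet C) : Has m n k := by
  classical
  let e := (Fintype.equivFin κ).symm
  have h1 := (h.equivSym (Fintype.equivFinOfCardEq hα)).restrict
    (fun i : Fin k => e (Fin.castLE hκ i)) (e.injective.comp (Fin.castLE_injective hκ))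
  exact ⟨_, h1⟩

/-- Products. -/
lemma IsVarSet.prod {ι κ α β : Type} [DecidableEq ι] {C : κ → (ι → α) → α}
    {D : κ → (ι → β) → β} (hC : IsVarSet C) (hD : IsVarSet D) :
    IsVarSet fun j (x : ι → α × β) => (C j (fun i => (x i).1), D j (fun i => (x i).2)) := by
  refine ⟨?_, ?_⟩
  · intro j x i
    have h1 := hC.1 j (fun i => (x i).1) i
    have h2 := hD.1 j (fun i => (x i).2) i
    have h3 : (fun a : α × β => (C j (fun k => (update x i a k).1),
        D j (fun k => (update x i a k).2))) = Prod.map
          (fun a => C j (update (fun i => (x i).1) i a))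
          (fun b => D j (update (fun i => (x i).2) i b)) := by
      funext a
      simp only [Prod.map]
      congr 2
      · funext k
        by_cases hk : k = i
        · subst hk; simp
        · simp [update_of_ne hk]
      · funext k
        by_cases hk : k = i
        · subst hk; simp
        · simp [update_of_ne hk]
    rw [h3]
    exact h1.prodMap h2
  · intro e he
    have h1 := hC.2 e he
    have h2 := hD.2 e he
    refine ⟨?_, ?_⟩
    · intro x y hxy
      have h3 : (fun i => (x i).1) = fun i => (y i).1 := h1.1 (by
        funext i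
        exact congrArg Prod.fst (congrFun hxy i))
      have h4 : (fun i => (x i).2) = fun i => (y i).2 := h2.1 (by
        funext i
        exact congrArg Prod.snd (congrFun hxy i))
      funext i
      exact Prod.ext (congrFun h3 i) (congrFun h4 i)
    · intro y
      obtain ⟨u, hu⟩ := h1.2 (fun i => (y i).1)
      obtain ⟨v, hv⟩ := h2.2 (fun i => (y i).2)
      refine ⟨fun i => (u i, v i), ?_⟩
      funext i
      exact Prod.ext (congrFun hu i) (congrFun hv i)

lemma Has.mul {m a b k : ℕ} (ha : Has m a k) (hb : Has m b k) : Has m (a * b) k := by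
  obtain ⟨C, hC⟩ := ha
  obtain ⟨D, hD⟩ := hb
  exact has_of (α := Fin a × Fin b) (κ := Fin k) (by simp) (by simp) (hC.prod hD)

section field

variable {F : Type} [Field F]

/-- The value of a polynomial at a point of the projective line; at infinity the
coefficient of degree `m - 1`. -/
noncomputable def val (m : ℕ) (t : Option F) (P : F[X]) : F :=
  match t with
  | none => P.coeff (m - 1)
  | some t => P.eval t

lemma val_lin {m : ℕ} (t : Option F) (f : Fin m → F[X]) (x : Fin m → F) :
    val m t (∑ j, C (x j) * f j) = ∑ j, x j * val m t (f j) := by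
  cases t with
  | none => simp [val]
  | some t => simp [val, eval_finsetSum]

/-- The cubes of a family of polynomials. -/
noncomputable def polyCube {m : ℕ} (f : Fin m → F[X]) (t : Option F) (x : Fin m → F) : F :=
  ∑ j, x j * val m t (f j)

lemma permCube_of_coeff {m : ℕ} (a : Fin m → F) (ha : ∀ i, a i ≠ 0) :
    IsPermCube fun x : Fin m → F => ∑ j, x j * a j := by
  intro x i
  have h1 : (fun b => ∑ j, update x i b j * a j)
      = fun b => (∑ j ∈ Finset.univ.erase i, x j * a j) + b * a i := by
    funext b
    rw [← Finset.sum_erase_add _ _ (Finset.mem_univ i), update_self]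
    congr 1
    refine Finset.sum_congr rfl fun j hj => ?_
    rw [update_of_ne (Finset.ne_of_mem_erase hj)]
  rw [h1]
  refine ⟨?_, ?_⟩
  · intro b b' hb
    exact mul_right_cancel₀ (ha i) (add_left_cancel hb)
  · intro y
    refine ⟨(y - ∑ j ∈ Finset.univ.erase i, x j * a j) / a i, ?_⟩
    field_simp [ha i]
    ring

/-- A polynomial of degree less than `m` vanishing at `m` points of the projective line is
zero. -/
lemma eq_zero_of_val {m : ℕ} (hm : 0 < m) (P : F[X]) (hP : P.degree < m)
    (e : Fin m → Option F) (he : Injective e) (h : ∀ i, val m (e i) P = 0) : P = 0 := by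
  classical
  let S : Finset (Option F) := Finset.univ.image e
  have hS : S.card = m := by
    rw [Finset.card_image_of_injective _ he]; simp
  let s : Finset F := Finset.eraseNone S
  have hs : ∀ t ∈ s, P.eval t = 0 := by
    intro t ht
    rw [Finset.mem_eraseNone] at ht
    obtain ⟨i, -, hi⟩ := Finset.mem_image.mp ht
    have := h i
    rw [hi] at this
    exact this
  have hcard : S.card = s.card + (if none ∈ S then 1 else 0) := by
    have h1 : s.map Embedding.some = S.erase none := Finset.map_some_eraseNone S
    have h2 : s.card = (S.erase none).card := by rw [← h1, Finset.card_map]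
    split_ifs with hn
    · rw [h2, Finset.card_erase_of_mem hn]
      have : 0 < S.card := Finset.card_pos.mpr ⟨_, hn⟩
      omega
    · rw [h2, Finset.erase_eq_of_notMem hn]
      rfl
  by_cases hn : none ∈ S
  · rw [if_pos hn] at hcard
    have hcoef : P.coeff (m - 1) = 0 := by
      obtain ⟨i, -, hi⟩ := Finset.mem_image.mp hn
      have := h i
      rw [hi] at this
      exact this
    have hdeg : P.degree < s.card := by
      rw [show s.card = m - 1 by omega, degree_lt_iff_coeff_zero]
      intro k hk
      rcases Nat.eq_or_lt_of_le hk with h1 | h1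
      · rw [← h1]; exact hcoef
      · exact (degree_lt_iff_coeff_zero P m).mp hP k (by omega)
    exact eq_zero_of_degree_lt_of_eval_finset_eq_zero s hdeg hs
  · rw [if_neg hn] at hcard
    have hdeg : P.degree < s.card := by
      rw [show s.card = m by omega]; exact hP
    exact eq_zero_of_degree_lt_of_eval_finset_eq_zero s hdeg hs

/-- A basis of rootless polynomials of exact degree gives a variational set. -/
lemma poly_varSet [Finite F] {m : ℕ} (hm : 0 < m) (f : Fin m → F[X]) (hdeg : ∀ j, (f j).degree < m)
    (hnz : ∀ t j, val m t (f j) ≠ 0)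
    (hli : ∀ x : Fin m → F, ∑ j, C (x j) * f j = 0 → ∀ j, x j = 0) :
    IsVarSet (polyCube f) := by
  refine ⟨fun t => permCube_of_coeff _ (hnz t), fun e he => ?_⟩
  refine (Finite.injective_iff_bijective).mp ?_
  intro x y hxy
  have h1 : ∑ j, C (x j - y j) * f j = 0 := by
    refine eq_zero_of_val hm _ ?_ e he ?_
    · refine lt_of_le_of_lt (degree_sum_le _ _) ?_
      rw [Finset.sup_lt_iff]
      · intro j _
        refine lt_of_le_of_lt (degree_mul_le _ _) ?_
        refine lt_of_le_of_lt (add_le_add_left degree_C_le _) ?_
        rw [zero_add]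
        exact hdeg j
      · exact WithBot.bot_lt_coe m
    · intro i
      rw [val_lin]
      have h2 := congrFun hxy i
      simp only [polyCube] at h2
      simp only [sub_mul, Finset.sum_sub_distrib]
      rw [h2, sub_self]
  funext j
  exact sub_eq_zero.mp (hli _ h1 j)

/-- A polynomial `X ^ (d + 2) - X ^ (d + 1) - c` without roots. -/
lemma exists_rootless [Finite F] (d : ℕ) : ∃ c : F, ∀ t : F, t ^ (d + 2) - t ^ (d + 1) ≠ c := by
  by_contra hcon
  push Not at hcon
  have h1 : Surjective fun t : F => t ^ (d + 2) - t ^ (d + 1) := hcon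
  have h2 := (Finite.injective_iff_surjective).mpr h1
  have h3 : (0 : F) = 1 := h2 (by simp)
  exact zero_ne_one h3

/-- Dimension at least four. -/
lemma varSet_four [Fintype F] [DecidableEq F] {m : ℕ} (hm : 4 ≤ m) (hq : m ≤ Fintype.card F) :
    ∃ f : Fin m → F[X], IsVarSet (polyCube f) := by
  obtain ⟨c, hc⟩ := exists_rootless (F := F) (m - 3)
  rw [show m - 3 + 2 = m - 1 by omega, show m - 3 + 1 = m - 2 by omega] at hc
  -- nodes
  let t : Fin m → F := fun i => (Fintype.equivFin F).symm (Fin.castLE hq i)
  have ht : Injective t := (Fintype.equivFin F).symm.injective.comp (Fin.castLE_injective hq)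
  let φ : F[X] := X ^ (m - 1) - X ^ (m - 2) - Polynomial.C c
  have hφ : ∀ s : F, φ.eval s ≠ 0 := by
    intro s hs
    simp only [φ, eval_sub, eval_pow, eval_X, eval_C] at hs
    exact hc s (sub_eq_zero.mp hs)
  have hφd : φ.degree < m := by
    refine lt_of_le_of_lt (degree_sub_le _ _) (max_lt ?_ ?_)
    · refine lt_of_le_of_lt (degree_sub_le _ _) (max_lt ?_ ?_)
      · rw [degree_X_pow]; exact_mod_cast (by omega : m - 1 < m)
      · rw [degree_X_pow]; exact_mod_cast (by omega : m - 2 < m)
    · refine lt_of_le_of_lt degree_C_le ?_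
      exact_mod_cast (by omega : 0 < m)
  have hφc : φ.coeff (m - 1) = 1 := by
    simp only [φ, coeff_sub, coeff_X_pow, coeff_C, if_true]
    rw [if_neg (by omega), if_neg (by omega)]
    ring
  let δ : Fin m → F[X] := fun i => ∏ j ∈ Finset.univ.erase i, (X - Polynomial.C (t j))
  have hδm : ∀ i, (δ i).Monic := fun i => monic_prod_of_monic _ _ fun j _ => monic_X_sub_C _
  have hδd : ∀ i, (δ i).natDegree = m - 1 := by
    intro i
    simp only [δ]
    rw [natDegree_prod_of_monic _ _ fun j _ => monic_X_sub_C _]
    simp [Finset.card_erase_of_mem]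
  have hδc : ∀ i, (δ i).coeff (m - 1) = 1 := by
    intro i
    rw [← hδd i]
    exact (hδm i).coeff_natDegree
  have hδe : ∀ i s, (δ i).eval s = ∏ j ∈ Finset.univ.erase i, (s - t j) := by
    intro i s
    simp [δ, eval_prod]
  have hδ0 : ∀ i j, i ≠ j → (δ i).eval (t j) = 0 := by
    intro i j hij
    rw [hδe]
    exact Finset.prod_eq_zero (Finset.mem_erase.mpr ⟨Ne.symm hij, Finset.mem_univ _⟩)
      (sub_self _)
  have hδ1 : ∀ i, (δ i).eval (t i) ≠ 0 := by
    intro i
    rw [hδe]
    refine Finset.prod_ne_zero_iff.mpr fun j hj => ?_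
    rw [Finset.mem_erase] at hj
    exact sub_ne_zero.mpr fun h => hj.1 (ht h).symm
  -- the multipliers
  have hlam : ∀ i : Fin m, ∃ l : F, l ≠ 0 ∧ 1 + l ≠ 0 ∧
      ∀ s, φ.eval s + l * (δ i).eval s ≠ 0 := by
    intro i
    let Z : Finset F := Finset.univ \ (Finset.univ.erase i).image t
    have hZ : Z.card = Fintype.card F - (m - 1) := by
      rw [Finset.card_sdiff_of_subset (Finset.subset_univ _),
        Finset.card_image_of_injective _ ht, Finset.card_erase_of_mem (Finset.mem_univ _)]
      simp
    let B : Finset F := insert 0 (insert (-1) (Z.image fun s => - φ.eval s / (δ i).eval s))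
    have hB : B.card < Fintype.card F := by
      have h1 : B.card ≤ Z.card + 1 + 1 :=
        (Finset.card_insert_le _ _).trans (Nat.add_le_add_right
          ((Finset.card_insert_le _ _).trans (Nat.add_le_add_right Finset.card_image_le _)) _)
      omega
    obtain ⟨l, hl⟩ : ∃ l, l ∉ B := by
      by_contra hcon
      push Not at hcon
      have h1 : B = Finset.univ := Finset.eq_univ_iff_forall.mpr hcon
      rw [h1, Finset.card_univ] at hB
      exact lt_irrefl _ hB
    simp only [B, Finset.mem_insert, Finset.mem_image, not_or, not_exists, not_and] at hl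
    refine ⟨l, hl.1, ?_, ?_⟩
    · intro h
      apply hl.2.1
      linear_combination h
    · intro s hs
      by_cases h0 : (δ i).eval s = 0
      · rw [h0, mul_zero, add_zero] at hs
        exact hφ s hs
      · have hsZ : s ∈ Z := by
          simp only [Z, Finset.mem_sdiff, Finset.mem_univ, true_and, Finset.mem_image,
            Finset.mem_erase, not_exists, not_and]
          rintro j hj rfl
          exact h0 (hδ0 i j (Ne.symm hj.1))
        apply hl.2.2 s hsZ
        rw [div_eq_iff h0]
        linear_combination -hs
  choose lam hl0 hl1 hl2 using hlam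
  let i0 : Fin m := ⟨0, by omega⟩
  let μ : Fin m → F := fun j => if j = i0 then 0 else lam j
  let f : Fin m → F[X] := fun j => φ + Polynomial.C (μ j) * δ j
  have hfe : ∀ j s, (f j).eval s = φ.eval s + μ j * (δ j).eval s := by
    intro j s
    simp [f]
  refine ⟨f, poly_varSet (by omega) f ?_ ?_ ?_⟩
  · intro j
    refine lt_of_le_of_lt (degree_add_le _ _) (max_lt hφd ?_)
    refine lt_of_le_of_lt (degree_mul_le _ _) ?_
    refine lt_of_le_of_lt (add_le_add_left degree_C_le _) ?_
    rw [zero_add, degree_eq_natDegree (hδm j).ne_zero, hδd j]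
    exact_mod_cast (by omega : m - 1 < m)
  · intro s j
    cases s with
    | none =>
      simp only [val, f, coeff_add, coeff_C_mul, hφc, hδc, mul_one]
      simp only [μ]
      split_ifs with h
      · simp
      · exact hl1 j
    | some s =>
      simp only [val]
      rw [hfe]
      simp only [μ]
      split_ifs with h
      · simpa using hφ s
      · exact hl2 j s
  · intro x hx
    have hev : ∀ i, (∑ j, x j) * φ.eval (t i) + x i * (μ i * (δ i).eval (t i)) = 0 := by
      intro i
      have h1 := congrArg (Polynomial.eval (t i)) hx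
      simp only [eval_finsetSum, eval_mul, eval_C, eval_zero] at h1
      rw [← h1, Finset.sum_mul]
      have h2 : ∀ j, x j * (f j).eval (t i) = x j * φ.eval (t i)
          + (if j = i then x i * (μ i * (δ i).eval (t i)) else 0) := by
        intro j
        rw [hfe]
        split_ifs with h
        · subst h; ring
        · rw [hδ0 j i h]; ring
      simp only [h2, Finset.sum_add_distrib, Finset.sum_ite_eq', Finset.mem_univ, if_true]
    have hs : ∑ j, x j = 0 := by
      have h1 := hev i0
      simp only [μ, if_true, zero_mul, mul_zero, add_zero] at h1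
      exact (mul_eq_zero.mp h1).resolve_right (hφ _)
    have hi : ∀ i, i ≠ i0 → x i = 0 := by
      intro i hii
      have h1 := hev i
      rw [hs, zero_mul, zero_add] at h1
      refine (mul_eq_zero.mp h1).resolve_right (mul_ne_zero ?_ (hδ1 i))
      simp only [μ, if_neg hii]
      exact hl0 i
    intro j
    by_cases hj : j = i0
    · rw [Finset.sum_eq_single i0 (fun b _ hb => hi b hb)
        (fun h => absurd (Finset.mem_univ _) h)] at hs
      rw [hj]; exact hs
    · exact hi j hj

/-- The three quadratic polynomials `X ^ 2 - b X - b ^ 2 c`. -/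
noncomputable def quad (b : Fin 3 → F) (c : F) (j : Fin 3) : F[X] :=
  X ^ 2 - Polynomial.C (b j) * X - Polynomial.C (b j ^ 2 * c)

lemma quad_coeff (b : Fin 3 → F) (c : F) (j : Fin 3) :
    (quad b c j).coeff 0 = - (b j ^ 2 * c) ∧ (quad b c j).coeff 1 = - b j ∧
      (quad b c j).coeff 2 = 1 := by
  simp only [quad, coeff_sub, coeff_X_pow, coeff_C_mul, coeff_X, coeff_C]
  refine ⟨?_, ?_, ?_⟩ <;> norm_num

lemma quad_degree (b : Fin 3 → F) (c : F) (j : Fin 3) : (quad b c j).degree < 3 := by
  rw [quad]
  compute_degree!

lemma quad_ne {b : Fin 3 → F} {c : F} (hb : ∀ j, b j ≠ 0) (hc : ∀ t : F, t ^ 2 - t ^ 1 ≠ c)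
    (s : Option F) (j : Fin 3) : val 3 s (quad b c j) ≠ 0 := by
  cases s with
  | none =>
    simp only [val]
    rw [show 3 - 1 = 2 from rfl, (quad_coeff b c j).2.2]
    exact one_ne_zero
  | some s =>
    simp only [val, quad, eval_sub, eval_pow, eval_mul, eval_X, eval_C]
    intro h
    apply hc (s / b j)
    have hbj := hb j
    field_simp
    linear_combination h

lemma quad_li {b : Fin 3 → F} {c : F} (hb : Injective b) (hc : c ≠ 0) (x : Fin 3 → F)
    (hx : ∑ j, Polynomial.C (x j) * quad b c j = 0) : ∀ j, x j = 0 := by
  have h : x = 0 := by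
    refine Matrix.eq_zero_of_forall_pow_sum_mul_pow_eq_zero hb ?_
    intro i
    have h0 := congrArg (fun P : F[X] => P.coeff 0) hx
    have h1 := congrArg (fun P : F[X] => P.coeff 1) hx
    have h2 := congrArg (fun P : F[X] => P.coeff 2) hx
    simp only [finsetSum_coeff, coeff_C_mul, coeff_zero, (quad_coeff b c _).1,
      (quad_coeff b c _).2.1, (quad_coeff b c _).2.2] at h0 h1 h2
    fin_cases i
    · simpa using h2
    · simp only [mul_neg, Finset.sum_neg_distrib, neg_eq_zero] at h1
      simpa using h1
    · have h3 : (∑ j, x j * b j ^ 2) * c = 0 := by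
        rw [Finset.sum_mul]
        simp only [mul_neg, Finset.sum_neg_distrib, neg_eq_zero] at h0
        rw [← h0]
        exact Finset.sum_congr rfl fun j _ => by ring
      exact (mul_eq_zero.mp h3).resolve_right hc
  intro j
  rw [h]; rfl

/-- Three distinct non-zero elements. -/
lemma exists_three [Fintype F] (hq : 4 ≤ Fintype.card F) :
    ∃ b : Fin 3 → F, Injective b ∧ ∀ j, b j ≠ 0 := by
  classical
  have h1 : 3 ≤ (Finset.univ.erase (0 : F)).card := by
    rw [Finset.card_erase_of_mem (Finset.mem_univ _), Finset.card_univ]
    omega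
  obtain ⟨s, hs, hs3⟩ := Finset.exists_subset_card_eq h1
  let e := (s.equivFinOfCardEq hs3).symm
  refine ⟨fun j => (e j).1, fun i j hij => e.injective (Subtype.ext hij), fun j => ?_⟩
  exact Finset.ne_of_mem_erase (hs (e j).2)

/-- Dimension three. -/
lemma varSet_three [Fintype F] (hq : 4 ≤ Fintype.card F) :
    ∃ f : Fin 3 → F[X], IsVarSet (polyCube f) := by
  obtain ⟨b, hb, hb0⟩ := exists_three hq
  obtain ⟨c, hc⟩ := exists_rootless (F := F) 0
  have hc0 : c ≠ 0 := fun h => hc 0 (by simp [h])
  exact ⟨quad b c, poly_varSet (by norm_num) _ (fun j => quad_degree b c j) (quad_ne hb0 hc)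
    (quad_li hb hc0)⟩

/-- Dimension three, characteristic two: one more cube. -/
lemma varSet_even [Fintype F] [CharP F 2] (hq : 4 ≤ Fintype.card F) :
    ∃ D : Option (Option F) → (Fin 3 → F) → F, IsVarSet D := by
  classical
  obtain ⟨b, hb, hb0⟩ := exists_three hq
  obtain ⟨c, hc⟩ := exists_rootless (F := F) 0
  have hc0 : c ≠ 0 := fun h => hc 0 (by simp [h])
  have hV := poly_varSet (m := 3) (by norm_num) (quad b c) (fun j => quad_degree b c j)
    (quad_ne hb0 hc) (quad_li hb hc0)
  -- two points and the middle coefficient
  have key : ∀ P : F[X], P.degree < 3 → P.coeff 1 = 0 → ∀ u v : Option F, u ≠ v →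
      val 3 u P = 0 → val 3 v P = 0 → P = 0 := by
    intro P hP h1 u v huv hu hv
    have hev : ∀ s, P.eval s = P.coeff 0 + P.coeff 2 * s ^ 2 := by
      intro s
      rw [eval_eq_sum_range' (n := 3) (by
        rw [Nat.lt_iff_add_one_le]
        by_cases hP0 : P = 0
        · rw [hP0]; simp
        · exact (natDegree_lt_iff_degree_lt hP0).mpr hP)]
      simp [Finset.sum_range_succ, h1]
    have hz : P.coeff 2 = 0 ∧ P.coeff 0 = 0 := by
      cases u with
      | none =>
        cases v with
        | none => exact absurd rfl huv
        | some t =>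
          have h2 : P.coeff 2 = 0 := hu
          have h3 : P.eval t = 0 := hv
          rw [hev, h2] at h3
          exact ⟨h2, by simpa using h3⟩
      | some s =>
        cases v with
        | none =>
          have h2 : P.coeff 2 = 0 := hv
          have h3 : P.eval s = 0 := hu
          rw [hev, h2] at h3
          exact ⟨h2, by simpa using h3⟩
        | some t =>
          have h3 : P.eval s = 0 := hu
          have h4 : P.eval t = 0 := hv
          rw [hev] at h3 h4
          have hst : s - t ≠ 0 := sub_ne_zero.mpr fun h => huv (by rw [h])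
          have h2' : (2 : F) = 0 := CharTwo.two_eq_zero
          have h5 : P.coeff 2 * (s - t) ^ 2 = 0 := by
            linear_combination h3 - h4 + (P.coeff 2 * (t ^ 2 - s * t)) * h2'
          have h6 : P.coeff 2 = 0 := by
            rcases mul_eq_zero.mp h5 with h | h
            · exact h
            · exact absurd (pow_eq_zero_iff (two_ne_zero) |>.mp h) hst
          rw [h6] at h3
          exact ⟨h6, by simpa using h3⟩
    ext k
    rcases Nat.lt_or_ge k 3 with hk | hk
    · interval_cases k
      · simpa using hz.2
      · simpa using h1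
      · simpa using hz.1
    · rw [coeff_zero]
      exact (degree_lt_iff_coeff_zero P 3).mp hP k hk
  let D : Option (Option F) → (Fin 3 → F) → F := fun t x => match t with
    | none => ∑ j, x j * (quad b c j).coeff 1
    | some t => polyCube (quad b c) t x
  refine ⟨D, ?_, ?_⟩
  · intro t
    cases t with
    | none =>
      refine permCube_of_coeff _ fun j => ?_
      rw [(quad_coeff b c j).2.1]
      exact neg_ne_zero.mpr (hb0 j)
    | some t => exact hV.1 t
  · intro e he
    by_cases hn : ∃ i, e i = none
    swap
    · push Not at hn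
      have h1 : ∀ i, ∃ s, e i = some s := fun i => Option.ne_none_iff_exists'.mp (hn i)
      choose e' he' using h1
      have h2 : Injective e' := by
        intro i j hij
        apply he
        rw [he', he', hij]
      have h3 := hV.2 e' h2
      have h4 : (fun (x : Fin 3 → F) (i : Fin 3) => D (e i) x)
          = fun (x : Fin 3 → F) (i : Fin 3) => polyCube (quad b c) (e' i) x := by
        funext x i
        rw [he' i]
      rw [h4]
      exact h3
    · obtain ⟨i, hi⟩ := hn
      refine (Finite.injective_iff_bijective).mp ?_
      intro x y hxy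
      -- the two other indices
      obtain ⟨j, l, hj, hl, hjl⟩ : ∃ j l : Fin 3, j ≠ i ∧ l ≠ i ∧ j ≠ l := by
        fin_cases i
        · exact ⟨1, 2, by decide, by decide, by decide⟩
        · exact ⟨0, 2, by decide, by decide, by decide⟩
        · exact ⟨0, 1, by decide, by decide, by decide⟩
      obtain ⟨u, hu⟩ := Option.ne_none_iff_exists'.mp (fun h => hj (he (h.trans hi.symm)))
      obtain ⟨v, hv⟩ := Option.ne_none_iff_exists'.mp (fun h => hl (he (h.trans hi.symm)))
      have huv : u ≠ v := by
        rintro rfl
        exact hjl (he (hu.trans hv.symm))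
      have h1 : ∑ j, Polynomial.C (x j - y j) * quad b c j = 0 := by
        refine key _ ?_ ?_ u v huv ?_ ?_
        · refine lt_of_le_of_lt (degree_sum_le _ _) ?_
          rw [Finset.sup_lt_iff]
          · intro j _
            refine lt_of_le_of_lt (degree_mul_le _ _) ?_
            refine lt_of_le_of_lt (add_le_add_left degree_C_le _) ?_
            rw [zero_add]
            exact quad_degree b c j
          · exact WithBot.bot_lt_coe 3
        · have h2 := congrFun hxy i
          simp only [D, hi] at h2
          simp only [finsetSum_coeff, coeff_C_mul, sub_mul, Finset.sum_sub_distrib]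
          rw [h2, sub_self]
        · rw [val_lin]
          have h2 := congrFun hxy j
          simp only [D, hu, polyCube] at h2
          simp only [sub_mul, Finset.sum_sub_distrib]
          rw [h2, sub_self]
        · rw [val_lin]
          have h2 := congrFun hxy l
          simp only [D, hv, polyCube] at h2
          simp only [sub_mul, Finset.sum_sub_distrib]
          rw [h2, sub_self]
      funext j
      exact sub_eq_zero.mp (quad_li hb hc0 _ h1 j)

end field

/-- Prime powers `q ≥ 4`, dimension `3 ≤ m ≤ q`: at least `q + 1` cubes. -/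
theorem has_field {p k m : ℕ} (hp : p.Prime) (hk : k ≠ 0) (h4 : 4 ≤ p ^ k) (hm : 3 ≤ m)
    (hmq : m ≤ p ^ k) : Has m (p ^ k) (p ^ k + 1) := by
  classical
  have : Fact p.Prime := ⟨hp⟩
  have : Fintype (GaloisField p k) := Fintype.ofFinite _
  have hcard : Fintype.card (GaloisField p k) = p ^ k := by
    rw [← Nat.card_eq_fintype_card]; exact GaloisField.card p k hk
  rcases Nat.eq_or_lt_of_le hm with h3 | h3
  · subst h3
    obtain ⟨f, hf⟩ := varSet_three (F := GaloisField p k) (by omega)
    exact has_of hcard (by simp [hcard]) hf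
  · obtain ⟨f, hf⟩ := varSet_four (F := GaloisField p k) (m := m) h3 (by omega)
    exact has_of hcard (by simp [hcard]) hf

/-- Powers of two, dimension three: at least `q + 2` cubes. -/
theorem has_even {k : ℕ} (h4 : 4 ≤ 2 ^ k) : Has 3 (2 ^ k) (2 ^ k + 2) := by
  classical
  have hk : k ≠ 0 := by rintro rfl; norm_num at h4
  have : Fact (Nat.Prime 2) := ⟨Nat.prime_two⟩
  have : Fintype (GaloisField 2 k) := Fintype.ofFinite _
  have hcard : Fintype.card (GaloisField 2 k) = 2 ^ k := by
    rw [← Nat.card_eq_fintype_card]; exact GaloisField.card 2 k hk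
  obtain ⟨D, hD⟩ := varSet_even (F := GaloisField 2 k) (by omega)
  exact has_of hcard (by simp [hcard]) hD

/-- `m + 1` cubes in every dimension at least three and for every order except 2 and 6. -/
theorem has_path {m n : ℕ} (hn : 3 ≤ n) (h6 : n ≠ 6) (hm : 3 ≤ m) : Has m n (m + 1) := by
  obtain ⟨P⟩ := (oa_bsp n hn h6).pair
  exact lower P m hm

/-- All prime power components at least `u + 1`, dimension `3 ≤ m ≤ u + 1`, `3 ≤ u`. -/
theorem has_comp {m u : ℕ} (hm : 3 ≤ m) (hu : 3 ≤ u) (hmu : m ≤ u + 1) : ∀ n : ℕ, 1 ≤ n →
    (∀ p, p.Prime → p ∣ n → u + 1 ≤ p ^ n.factorization p) → Has m n (u + 2) := by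
  intro n
  induction n using Nat.recOnPosPrimePosCoprime with
  | prime_pow p k hp hk =>
    intro _ h
    have h1 := h p hp (dvd_pow_self p (by omega))
    rw [hp.factorization_pow, Finsupp.single_eq_same] at h1
    exact (has_field hp (by omega) (by omega) hm (by omega)).mono (by omega)
  | zero => intro h; omega
  | one =>
    intro _ _
    refine ⟨fun _ _ => 0, fun j x i => ⟨fun a b _ => Subsingleton.elim _ _, fun y => ⟨0, ?_⟩⟩,
      fun e he => ⟨fun x y _ => Subsingleton.elim _ _, fun y => ⟨0, ?_⟩⟩⟩
    · exact Subsingleton.elim _ _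
    · exact Subsingleton.elim _ _
  | coprime a b ha hb hab iha ihb =>
    intro _ h
    refine Has.mul (iha (by omega) ?_) (ihb (by omega) ?_)
    · intro p hp hpa
      have h1 := h p hp (hpa.mul_right b)
      have h2 : b.factorization p = 0 := by
        apply Nat.factorization_eq_zero_of_not_dvd
        intro hpb
        have := Nat.dvd_gcd hpa hpb
        rw [hab] at this
        exact hp.one_lt.ne' (Nat.dvd_one.mp this)
      rw [Nat.factorization_mul (by omega) (by omega)] at h1
      simpa [h2] using h1
    · intro p hp hpb
      have h1 := h p hp (hpb.mul_left a)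
      have h2 : a.factorization p = 0 := by
        apply Nat.factorization_eq_zero_of_not_dvd
        intro hpa
        have := Nat.dvd_gcd hpa hpb
        rw [hab] at this
        exact hp.one_lt.ne' (Nat.dvd_one.mp this)
      rw [Nat.factorization_mul (by omega) (by omega)] at h1
      simpa [h2] using h1

end Pool.VarCube
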