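import Pool.Agent.H96.VAR.Top
import Pool.Agent.H96.VAR.Lin

/-!
# Dimension one less than the order: `q + 2` cubes for even `q`

Over a field `F` of characteristic two with at least four elements and `l` different from
0 and 1, on the index set of the non-zero elements: the cubes `∑ x + l x_t` (`t ≠ 0`),
`∑ x`, `∑ s x_s`, `∑ s ^ 2 x_s`.
-/

namespace Pool.VarCube

open Function Polynomial

/-- Moments: a function with support of size at most `d` and vanishing moments of order
less than `d` (with respect to an injective function) is zero. -/
lemma mom {F : Type} [Field F] [Fintype F] [DecidableEq F] (g : F → F) (hg : Injective g)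
    (Y : F → F) (d : ℕ) (hW : (Finset.univ.filter fun t => Y t ≠ 0).card ≤ d)
    (hm : ∀ j < d, ∑ t, g t ^ j * Y t = 0) : ∀ t, Y t = 0 := by
  intro t0
  by_contra h0
  set W := Finset.univ.filter fun t => Y t ≠ 0 with hWd
  have ht0 : t0 ∈ W := by simp [hWd, h0]
  let P : F[X] := ∏ s ∈ W.erase t0, (X - Polynomial.C (g s))
  have hPd : P.natDegree < d := by
    simp only [P]
    rw [natDegree_prod_of_monic _ _ fun j _ => monic_X_sub_C _]
    simp only [natDegree_X_sub_C, Finset.sum_const, smul_eq_mul, mul_one]
    rw [Finset.card_erase_of_mem ht0]
    have : 0 < W.card := Finset.card_pos.mpr ⟨_, ht0⟩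
    omega
  have h1 : ∑ t, P.eval (g t) * Y t = 0 := by
    have h2 : ∀ t, P.eval (g t) * Y t = ∑ j ∈ Finset.range d, P.coeff j * (g t ^ j * Y t) := by
      intro t
      rw [eval_eq_sum_range' hPd, Finset.sum_mul]
      exact Finset.sum_congr rfl fun j _ => by ring
    simp only [h2]
    rw [Finset.sum_comm]
    refine Finset.sum_eq_zero fun j hj => ?_
    rw [← Finset.mul_sum, hm j (Finset.mem_range.mp hj), mul_zero]
  rw [Finset.sum_eq_single t0] at h1
  · have h2 : P.eval (g t0) ≠ 0 := by
      simp only [P, eval_prod, eval_sub, eval_X, eval_C]
      refine Finset.prod_ne_zero_iff.mpr fun s hs => ?_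
      exact sub_ne_zero.mpr fun h => (Finset.ne_of_mem_erase hs) (hg h).symm
    exact h0 ((mul_eq_zero.mp h1).resolve_left h2)
  · intro s _ hs
    by_cases hsW : s ∈ W
    · have h2 : P.eval (g s) = 0 := by
        simp only [P, eval_prod, eval_sub, eval_X, eval_C]
        exact Finset.prod_eq_zero (Finset.mem_erase.mpr ⟨hs, hsW⟩) (sub_self _)
      rw [h2, zero_mul]
    · have h2 : Y s = 0 := by
        by_contra h
        exact hsW (by simp [hWd, h])
      rw [h2, mul_zero]
  · intro h; exact absurd (Finset.mem_univ _) h

/-- The `q + 2` cubes. -/
noncomputable def dualCube {F : Type} [Field F] [Fintype F] [DecidableEq F] (l : F)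
    (u : Option (Option F)) (x : {t : F // t ≠ 0} → F) : F :=
  match u with
  | none => ∑ s, s.1 ^ 2 * x s
  | some none => ∑ s, s.1 * x s
  | some (some t) => if h : t = 0 then ∑ s, x s else ∑ s, x s + l * x ⟨t, h⟩

lemma permCube_lin {F ι : Type} [Field F] [Fintype ι] [DecidableEq ι] (a : ι → F)
    (ha : ∀ i, a i ≠ 0) : IsPermCube fun x : ι → F => ∑ j, a j * x j := by
  intro x i
  have h1 : (fun b => ∑ j, a j * update x i b j)
      = fun b => (∑ j ∈ Finset.univ.erase i, a j * x j) + a i * b := by
    funext b
    rw [← Finset.sum_erase_add _ _ (Finset.mem_univ i), update_self]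
    congr 1
    refine Finset.sum_congr rfl fun j hj => ?_
    rw [update_of_ne (Finset.ne_of_mem_erase hj)]
  rw [h1]
  refine ⟨?_, ?_⟩
  · intro b b' hb
    exact mul_left_cancel₀ (ha i) (add_left_cancel hb)
  · intro y
    refine ⟨(y - ∑ j ∈ Finset.univ.erase i, a j * x j) / a i, ?_⟩
    field_simp [ha i]
    ring

/-- The cubes form a variational set. -/
theorem dual_varSet {F : Type} [Field F] [Fintype F] [DecidableEq F] [CharP F 2] (l : F)
    (hl0 : l ≠ 0) (hl1 : l ≠ 1) (hq : Even (Fintype.card F)) (hq3 : 3 ≤ Fintype.card F) :
    IsVarSet (dualCube l) := by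
  have h2 : (2 : F) = 0 := CharTwo.two_eq_zero
  have hl2 : 1 + l ≠ 0 := fun h => hl1 (by linear_combination h - h2)
  have hcard : Fintype.card {t : F // t ≠ 0} = Fintype.card F - 1 := by
    rw [Fintype.card_subtype_compl]
    simp
  -- number of non-zero elements, in F
  have hqF : ((Fintype.card {t : F // t ≠ 0} : ℕ) : F) = 1 := by
    rw [hcard]
    obtain ⟨r, hr⟩ := hq
    rw [hr, show r + r - 1 = 2 * (r - 1) + 1 by omega]
    push_cast
    rw [h2]
    ring
  refine ⟨?_, ?_⟩
  · intro u
    cases u with
    | none => exact permCube_lin (fun s : {t : F // t ≠ 0} => s.1 ^ 2) fun s => pow_ne_zero _ s.2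
    | some u =>
      cases u with
      | none => exact permCube_lin (fun s : {t : F // t ≠ 0} => s.1) fun s => s.2
      | some t =>
        by_cases ht : t = 0
        · have h3 : dualCube l (some (some t)) = fun x => ∑ s : {t : F // t ≠ 0}, 1 * x s := by
            funext x
            simp [dualCube, ht]
          rw [h3]
          exact permCube_lin (fun _ => 1) fun _ => one_ne_zero
        · have h3 : dualCube l (some (some t)) = fun x => ∑ s : {t : F // t ≠ 0},
              (1 + if s = ⟨t, ht⟩ then l else 0) * x s := by
            funext x
            simp only [dualCube, dif_neg ht, add_mul, one_mul, Finset.sum_add_distrib, ite_mul,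
              zero_mul, Finset.sum_ite_eq', Finset.mem_univ, if_true]
          rw [h3]
          refine permCube_lin _ fun s => ?_
          split_ifs
          · exact hl2
          · simp
  · intro e he
    refine (Finite.injective_iff_bijective).mp ?_
    intro x x' hxx
    -- the difference
    let z : {t : F // t ≠ 0} → F := fun s => x s - x' s
    have hz : ∀ u, (∃ i, e i = u) → dualCube l u z = 0 := by
      rintro u ⟨i, rfl⟩
      have h3 := congrFun hxx i
      simp only at h3
      cases hu : e i with
      | none =>
        rw [hu] at h3
        simp only [dualCube] at h3 ⊢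
        simp only [z, mul_sub, Finset.sum_sub_distrib]
        rw [h3, sub_self]
      | some v =>
        cases v with
        | none =>
          rw [hu] at h3
          simp only [dualCube] at h3 ⊢
          simp only [z, mul_sub, Finset.sum_sub_distrib]
          rw [h3, sub_self]
        | some t =>
          rw [hu] at h3
          simp only [dualCube] at h3 ⊢
          split_ifs at h3 ⊢ with ht
          · simp only [z, Finset.sum_sub_distrib]
            rw [h3, sub_self]
          · simp only [z, Finset.sum_sub_distrib]
            linear_combination h3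
    -- the function Y
    let σ : F := ∑ s, z s
    let Y : F → F := fun t => if h : t = 0 then (1 + l) * σ else σ + l * z ⟨t, h⟩
    have hsum : ∀ g : F → F, ∑ t, g t * Y t
        = g 0 * ((1 + l) * σ) + ∑ s : {t : F // t ≠ 0}, g s.1 * (σ + l * z s) := by
      intro g
      have h3 : ∑ t, g t * Y t = g 0 * Y 0 + ∑ t ∈ Finset.univ.erase (0 : F), g t * Y t := by
        rw [add_comm, Finset.sum_erase_add _ _ (Finset.mem_univ _)]
      have h4 : ∑ t ∈ Finset.univ.erase (0 : F), g t * Y t
          = ∑ s : {t : F // t ≠ 0}, g s.1 * Y s.1 := by
        refine (Finset.sum_subtype _ (fun t => ?_) _)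
        simp
      rw [h3, h4]
      congr 1
      · simp [Y]
      · refine Finset.sum_congr rfl fun s _ => ?_
        simp only [Y, dif_neg s.2]
    -- sums of powers of the non-zero elements
    have hp0 : ∑ _s : {t : F // t ≠ 0}, (1 : F) = 1 := by
      rw [Finset.sum_const, Finset.card_univ, nsmul_eq_mul, hqF, one_mul]
    have hp1 : ∑ s : {t : F // t ≠ 0}, s.1 = 0 := by
      have h3 : ∑ t ∈ Finset.univ.erase (0 : F), t = ∑ s : {t : F // t ≠ 0}, s.1 :=
        Finset.sum_subtype _ (fun t => by simp) _
      have h4 : ∑ t : F, t = 0 + ∑ t ∈ Finset.univ.erase (0 : F), t := by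
        rw [add_comm, Finset.sum_erase_add _ _ (Finset.mem_univ _)]
      have h5 : ∑ t : F, t = 0 := by
        have h6 := FiniteField.sum_pow_lt_card_sub_one F 1 (by omega)
        simpa using h6
      rw [← h3]
      rw [h5, zero_add] at h4
      exact h4.symm
    have hp2 : ∑ s : {t : F // t ≠ 0}, s.1 ^ 2 = 0 := by
      have h3 : ∑ s : {t : F // t ≠ 0}, s.1 ^ 2 = (∑ s : {t : F // t ≠ 0}, s.1) ^ 2 := by
        rw [CharTwo.sum_sq]
      rw [h3, hp1]
      ring
    have hm0 : ∑ t, Y t = 0 := by
      have h3 := hsum (fun _ => 1)
      simp only [one_mul, Finset.sum_add_distrib, Finset.sum_const, Finset.card_univ,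
        nsmul_eq_mul, hqF, ← Finset.mul_sum] at h3
      rw [h3]
      change (1 + l) * σ + (σ + l * σ) = 0
      linear_combination ((1 + l) * σ) * h2
    have hm1 : ∑ t, t * Y t = l * ∑ s, s.1 * z s := by
      have h3 := hsum (fun t => t)
      rw [h3, zero_mul, zero_add]
      simp only [mul_add, Finset.sum_add_distrib, ← Finset.sum_mul, hp1, zero_mul, zero_add]
      rw [Finset.mul_sum]
      exact Finset.sum_congr rfl fun s _ => by ring
    have hm2 : ∑ t, t ^ 2 * Y t = l * ∑ s, s.1 ^ 2 * z s := by
      have h3 := hsum (fun t => t ^ 2)
      rw [h3, zero_pow two_ne_zero, zero_mul, zero_add]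
      simp only [mul_add, Finset.sum_add_distrib, ← Finset.sum_mul, hp2, zero_mul, zero_add]
      rw [Finset.mul_sum]
      exact Finset.sum_congr rfl fun s _ => by ring
    -- the support of Y
    have hY0 : ∀ t, (∃ i, e i = some (some t)) → Y t = 0 := by
      intro t ht
      have h3 := hz _ ht
      simp only [dualCube] at h3
      simp only [Y]
      split_ifs at h3 ⊢ with h4
      · change (1 + l) * σ = 0
        rw [show σ = 0 from h3, mul_zero]
      · exact h3
    let W := Finset.univ.filter fun t => Y t ≠ 0
    let E : Finset (Option (Option F)) := Finset.univ.image e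
    have hE : E.card = Fintype.card F - 1 := by
      rw [Finset.card_image_of_injective _ he, Finset.card_univ, hcard]
    let W' : Finset (Option (Option F)) := W.image fun t => some (some t)
    have hW' : W'.card = W.card := Finset.card_image_of_injective _ fun s t h => by simpa using h
    have hdis : Disjoint E W' := by
      rw [Finset.disjoint_left]
      intro u hu hu'
      obtain ⟨i, -, hi⟩ := Finset.mem_image.mp hu
      obtain ⟨t, ht, htu⟩ := Finset.mem_image.mp hu'
      have h3 := hY0 t ⟨i, by rw [hi, ← htu]⟩
      simp only [W, Finset.mem_filter, Finset.mem_univ, true_and] at ht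
      exact ht h3
    have hall : Fintype.card (Option (Option F)) = Fintype.card F + 2 := by simp
    -- all values of Y vanish
    have hYz : ∀ t, Y t = 0 := by
      by_cases hn : none ∈ E
      · have hs2 : ∑ t, t ^ 2 * Y t = 0 := by
          rw [hm2]
          obtain ⟨i, -, hi⟩ := Finset.mem_image.mp hn
          have h3 := hz none ⟨i, hi⟩
          simp only [dualCube] at h3
          rw [h3, mul_zero]
        by_cases hn' : some none ∈ E
        · have hs1 : ∑ t, t * Y t = 0 := by
            rw [hm1]
            obtain ⟨i, -, hi⟩ := Finset.mem_image.mp hn'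
            have h3 := hz (some none) ⟨i, hi⟩
            simp only [dualCube] at h3
            rw [h3, mul_zero]
          have hWc : W.card ≤ 3 := by
            have h3 : (E ∪ W').card ≤ Fintype.card F + 2 := by
              rw [← hall]; exact Finset.card_le_univ _
            rw [Finset.card_union_of_disjoint hdis, hE, hW'] at h3
            omega
          refine mom (fun t => t) (fun _ _ h => h) Y 3 hWc ?_
          intro j hj
          interval_cases j
          · simpa using hm0
          · simpa using hs1
          · exact hs2
        · -- only the second moment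
          have hWc : W.card ≤ 2 := by
            have h3 : (insert (some none) (E ∪ W')).card ≤ Fintype.card F + 2 := by
              rw [← hall]; exact Finset.card_le_univ _
            rw [Finset.card_insert_of_notMem, Finset.card_union_of_disjoint hdis, hE, hW'] at h3
            · omega
            · rw [Finset.mem_union, not_or]
              refine ⟨hn', ?_⟩
              simp [W']
          refine mom (fun t => t ^ 2) ?_ Y 2 hWc ?_
          · intro s t hst
            have h3 : (s - t) ^ 2 = 0 := by
              have h4 : s ^ 2 = t ^ 2 := hst
              linear_combination h4 + (t ^ 2 - s * t) * h2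
            exact sub_eq_zero.mp (pow_eq_zero_iff (two_ne_zero) |>.mp h3)
          · intro j hj
            interval_cases j
            · simpa using hm0
            · simpa using hs2
      · by_cases hn' : some none ∈ E
        · have hs1 : ∑ t, t * Y t = 0 := by
            rw [hm1]
            obtain ⟨i, -, hi⟩ := Finset.mem_image.mp hn'
            have h3 := hz (some none) ⟨i, hi⟩
            simp only [dualCube] at h3
            rw [h3, mul_zero]
          have hWc : W.card ≤ 2 := by
            have h3 : (insert none (E ∪ W')).card ≤ Fintype.card F + 2 := by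
              rw [← hall]; exact Finset.card_le_univ _
            rw [Finset.card_insert_of_notMem, Finset.card_union_of_disjoint hdis, hE, hW'] at h3
            · omega
            · rw [Finset.mem_union, not_or]
              refine ⟨hn, ?_⟩
              simp [W']
          refine mom (fun t => t) (fun _ _ h => h) Y 2 hWc ?_
          intro j hj
          interval_cases j
          · simpa using hm0
          · simpa using hs1
        · have hWc : W.card ≤ 1 := by
            have h3 : (insert none (insert (some none) (E ∪ W'))).card
                ≤ Fintype.card F + 2 := by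
              rw [← hall]; exact Finset.card_le_univ _
            rw [Finset.card_insert_of_notMem, Finset.card_insert_of_notMem,
              Finset.card_union_of_disjoint hdis, hE, hW'] at h3
            · omega
            · rw [Finset.mem_union, not_or]
              refine ⟨hn', ?_⟩
              simp [W']
            · rw [Finset.mem_insert, Finset.mem_union, not_or, not_or]
              refine ⟨by simp, hn, ?_⟩
              simp [W']
          refine mom (fun t => t) (fun _ _ h => h) Y 1 hWc ?_
          intro j hj
          interval_cases j
          simpa using hm0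
    -- conclusion
    have hσ : σ = 0 := by
      have h3 := hYz 0
      simp only [Y, dif_pos] at h3
      exact (mul_eq_zero.mp h3).resolve_left hl2
    funext s
    have h3 := hYz s.1
    simp only [Y, dif_neg s.2] at h3
    rw [hσ, zero_add] at h3
    exact sub_eq_zero.mp ((mul_eq_zero.mp h3).resolve_left hl0)

/-- `q + 2` cubes of dimension `q - 1` for `q = 2 ^ k ≥ 4`. -/
theorem has_dual {k : ℕ} (h4 : 4 ≤ 2 ^ k) : Has (2 ^ k - 1) (2 ^ k) (2 ^ k + 2) := by
  classical
  have hk : k ≠ 0 := by rintro rfl; norm_num at h4
  have : Fact (Nat.Prime 2) := ⟨Nat.prime_two⟩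
  let F := GaloisField 2 k
  have : Fintype F := Fintype.ofFinite _
  have hcard : Fintype.card F = 2 ^ k := by
    rw [← Nat.card_eq_fintype_card]; exact GaloisField.card 2 k hk
  have hex : ∃ l : F, l ≠ 0 ∧ l ≠ 1 := by
    by_contra hcon
    push Not at hcon
    have h1 : (Finset.univ : Finset F) ⊆ {0, 1} := by
      intro l _
      by_cases h : l = 0
      · simp [h]
      · simp [hcon l h]
    have h2 := Finset.card_le_card h1
    rw [Finset.card_univ, hcard] at h2
    have h3 : ({0, 1} : Finset F).card ≤ 2 := Finset.card_le_two
    omega
  obtain ⟨l, hl0, hl1⟩ := hex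
  have hV := dual_varSet (F := F) l hl0 hl1
    (by rw [hcard]; exact (even_two).pow_of_ne_zero hk) (by omega)
  have hc' : Fintype.card {t : F // t ≠ 0} = 2 ^ k - 1 := by
    rw [Fintype.card_subtype_compl]
    simp [hcard]
  exact has_of hcard (by simp [hcard]) (hV.equivDim (Fintype.equivFinOfCardEq hc'))

end Pool.VarCube
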