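import Mathlib

/-!
# Orthogonal arrays of strength two and index one

Columns indexed by `κ`, symbols `S`: products, fields, change of symbols, and Wilson's
construction.
-/

namespace Pool.VarCube

open Function

/-- An orthogonal array of strength two and index one: rows `R`, columns `κ`, symbols `S`;
any two different columns are jointly a bijection onto the pairs of symbols. -/
def OA (κ S : Type) : Prop :=
  ∃ (R : Type) (c : κ → R → S), ∀ i j, i ≠ j → Bijective fun r => (c i r, c j r)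

lemma OA.restrict {κ κ' S : Type} (h : OA κ S) (g : κ' → κ) (hg : Injective g) : OA κ' S := by
  obtain ⟨R, c, hc⟩ := h
  exact ⟨R, fun i => c (g i), fun i j hij => hc _ _ (fun he => hij (hg he))⟩

lemma OA.equiv {κ S S' : Type} (h : OA κ S) (e : S ≃ S') : OA κ S' := by
  obtain ⟨R, c, hc⟩ := h
  refine ⟨R, fun i r => e (c i r), fun i j hij => ?_⟩
  have := (Equiv.prodCongr e e).bijective.comp (hc i j hij)
  exact this

lemma OA.prod {κ S T : Type} (h : OA κ S) (h' : OA κ T) : OA κ (S × T) := by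
  obtain ⟨R, c, hc⟩ := h
  obtain ⟨R', c', hc'⟩ := h'
  refine ⟨R × R', fun i r => (c i r.1, c' i r.2), fun i j hij => ⟨?_, ?_⟩⟩
  · rintro ⟨r, r'⟩ ⟨s, s'⟩ hrs
    simp only [Prod.mk.injEq] at hrs
    have h1 : r = s := (hc i j hij).1 (by simp [hrs.1.1, hrs.2.1])
    have h2 : r' = s' := (hc' i j hij).1 (by simp [hrs.1.2, hrs.2.2])
    rw [h1, h2]
  · rintro ⟨⟨a, a'⟩, ⟨b, b'⟩⟩
    obtain ⟨r, hr⟩ := (hc i j hij).2 (a, b)
    obtain ⟨r', hr'⟩ := (hc' i j hij).2 (a', b')
    simp only [Prod.mk.injEq] at hr hr'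
    exact ⟨(r, r'), by simp [hr.1, hr.2, hr'.1, hr'.2]⟩

/-- One symbol. -/
lemma oa_one (κ : Type) : OA κ (Fin 1) := by
  refine ⟨Unit, fun _ _ => 0, fun i j _ => ⟨fun _ _ _ => rfl, ?_⟩⟩
  rintro ⟨a, b⟩
  exact ⟨(), by ext <;> omega⟩

/-- The columns of a field: `x ↦ x.1` and `x ↦ x.1 * t + x.2`. -/
lemma oa_field (F : Type) [Field F] : OA (Option F) F := by
  refine ⟨F × F, fun i r => match i with
    | none => r.1
    | some t => r.1 * t + r.2, ?_⟩
  intro i j hij
  cases i with
  | none =>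
    cases j with
    | none => exact absurd rfl hij
    | some t =>
      refine ⟨?_, ?_⟩
      · rintro ⟨a, b⟩ ⟨a', b'⟩ hh
        simp only [Prod.mk.injEq] at hh
        obtain ⟨h1, h2⟩ := hh
        subst h1
        rw [add_left_cancel h2]
      · rintro ⟨a, b⟩
        exact ⟨(a, b - a * t), by simp⟩
  | some s =>
    cases j with
    | none =>
      refine ⟨?_, ?_⟩
      · rintro ⟨a, b⟩ ⟨a', b'⟩ hh
        simp only [Prod.mk.injEq] at hh
        obtain ⟨h2, h1⟩ := hh
        subst h1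
        rw [add_left_cancel h2]
      · rintro ⟨b, a⟩
        exact ⟨(a, b - a * s), by simp⟩
    | some t =>
      have hst : s - t ≠ 0 := by
        intro h0
        exact hij (by rw [sub_eq_zero.mp h0])
      refine ⟨?_, ?_⟩
      · rintro ⟨a, b⟩ ⟨a', b'⟩ hh
        simp only [Prod.mk.injEq] at hh
        obtain ⟨h1, h2⟩ := hh
        have h3 : (a - a') * (s - t) = 0 := by linear_combination h1 - h2
        have h4 : a = a' := by
          rcases mul_eq_zero.mp h3 with h5 | h5
          · exact sub_eq_zero.mp h5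
          · exact absurd h5 hst
        subst h4
        rw [add_left_cancel h1]
      · rintro ⟨u, v⟩
        refine ⟨((u - v) / (s - t), u - (u - v) / (s - t) * s), ?_⟩
        simp only [Prod.mk.injEq]
        constructor
        · ring
        · field_simp
          ring

/-- Relabelling so that a given row has the symbol `none` in every column. -/
lemma OA.norm {κ M : Type} (h : OA κ (Option M)) (hne : ∃ i j : κ, i ≠ j) :
    ∃ (R : Type) (c : κ → R → Option M) (q : R), (∀ i, c i q = none) ∧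
      ∀ i j, i ≠ j → Bijective fun r => (c i r, c j r) := by
  classical
  obtain ⟨R, c, hc⟩ := h
  obtain ⟨i0, j0, hij⟩ := hne
  obtain ⟨q, -⟩ := (hc i0 j0 hij).2 (none, none)
  refine ⟨R, fun i r => Equiv.swap (c i q) none (c i r), q, fun i => by simp, ?_⟩
  intro i j hij
  have := (Equiv.prodCongr (Equiv.swap (c i q) none) (Equiv.swap (c j q) none)).bijective.comp
    (hc i j hij)
  exact this

/-- Wilson's construction. -/
theorem oa_wilson {κ T M U : Type} (hne : ∃ i j : κ, i ≠ j) (h5 : OA (Option κ) T)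
    (hP : OA κ M) (hQ : OA κ (Option M)) (hR : OA κ U) (g : U → T) (hg : Injective g) :
    OA κ ((T × M) ⊕ U) := by
  classical
  obtain ⟨R5, c, hc⟩ := h5
  obtain ⟨RP, P, hP⟩ := hP
  obtain ⟨RQ, Q, q0, hq0, hQ⟩ := hQ.norm hne
  obtain ⟨RU, V, hV⟩ := hR
  refine ⟨({B : R5 // c none B ∉ Set.range g} × RP) ⊕
    (({B : R5 × U // c none B.1 = g B.2} × {r : RQ // r ≠ q0}) ⊕ RU),
    fun i r => match r with
      | Sum.inl (B, r) => Sum.inl (c (some i) B.1, P i r)
      | Sum.inr (Sum.inl (B, r)) => match Q i r.1 with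
          | none => Sum.inr B.1.2
          | some m => Sum.inl (c (some i) B.1.1, m)
      | Sum.inr (Sum.inr r) => Sum.inr (V i r), ?_⟩
  intro i j hij
  have hsij : (some i : Option κ) ≠ some j := fun h => hij (Option.some.inj h)
  have hcij := hc (some i) (some j) hsij
  have hci := hc (some i) none (by simp)
  have hcj := hc none (some j) (by simp)
  have hq : ∀ r : RQ, r ≠ q0 → ¬ (Q i r = none ∧ Q j r = none) := by
    rintro r hr ⟨h1, h2⟩
    apply hr
    apply (hQ i j hij).1
    simp [h1, h2, hq0]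
  refine ⟨?_, ?_⟩
  · rintro (⟨⟨B, hB⟩, r⟩ | ⟨⟨⟨B, u⟩, hB⟩, ⟨r, hr⟩⟩ | r) (⟨⟨B', hB'⟩, r'⟩ | ⟨⟨⟨B', u'⟩, hB'⟩, ⟨r', hr'⟩⟩ | r') hh
    · simp only [Prod.mk.injEq, Sum.inl.injEq] at hh
      have h1 : B = B' := hcij.1 (by simp [hh.1.1, hh.2.1])
      have h2 : r = r' := (hP i j hij).1 (by simp [hh.1.2, hh.2.2])
      subst h1; subst h2; rfl
    · exfalso
      simp only [Prod.mk.injEq] at hh
      obtain ⟨h1, h2⟩ := hh
      rcases hQi : Q i r' with _ | m1 <;> rcases hQj : Q j r' with _ | m2 <;>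
        simp only [hQi, hQj, Sum.inl.injEq, reduceCtorEq, Prod.mk.injEq] at h1 h2
      have h3 : B = B' := hcij.1 (by simp [h1.1, h2.1])
      subst h3
      exact hB ⟨u', hB'.symm⟩
    · exfalso
      simp only [Prod.mk.injEq, reduceCtorEq, false_and] at hh
    · exfalso
      simp only [Prod.mk.injEq] at hh
      obtain ⟨h1, h2⟩ := hh
      rcases hQi : Q i r with _ | m1 <;> rcases hQj : Q j r with _ | m2 <;>
        simp only [hQi, hQj, Sum.inl.injEq, reduceCtorEq, Prod.mk.injEq] at h1 h2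
      have h3 : B = B' := hcij.1 (by simp [h1.1, h2.1])
      subst h3
      exact hB' ⟨u, hB.symm⟩
    · simp only [Prod.mk.injEq] at hh
      obtain ⟨h1, h2⟩ := hh
      simp only at hB hB'
      rcases hQi : Q i r with _ | m1 <;> rcases hQj : Q j r with _ | m2 <;>
        rcases hQi' : Q i r' with _ | m1' <;> rcases hQj' : Q j r' with _ | m2' <;>
        simp only [hQi, hQj, hQi', hQj', Sum.inl.injEq, Sum.inr.injEq, reduceCtorEq,
          Prod.mk.injEq] at h1 h2
      · exact absurd ⟨hQi, hQj⟩ (hq r hr)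
      · -- none, some
        obtain ⟨h2, h3⟩ := h2
        subst h1; subst h3
        have h4 : B = B' := hcj.1 (by simp [hB, hB', h2])
        have h5 : r = r' := (hQ i j hij).1 (by simp [hQi, hQj, hQi', hQj'])
        subst h4; subst h5; rfl
      · obtain ⟨h1, h3⟩ := h1
        subst h2; subst h3
        have h4 : B = B' := hci.1 (by simp [hB, hB', h1])
        have h5 : r = r' := (hQ i j hij).1 (by simp [hQi, hQj, hQi', hQj'])
        subst h4; subst h5; rfl
      · obtain ⟨h1, h3⟩ := h1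
        obtain ⟨h2, h4⟩ := h2
        subst h3; subst h4
        have h5 : B = B' := hcij.1 (by simp [h1, h2])
        have h6 : r = r' := (hQ i j hij).1 (by simp [hQi, hQj, hQi', hQj'])
        subst h5; subst h6
        have h7 : u = u' := hg (by rw [← hB, ← hB'])
        subst h7; rfl
    · exfalso
      simp only [Prod.mk.injEq] at hh
      obtain ⟨h1, h2⟩ := hh
      rcases hQi : Q i r with _ | m1 <;> rcases hQj : Q j r with _ | m2 <;>
        simp only [hQi, hQj, reduceCtorEq] at h1 h2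
      exact hq r hr ⟨hQi, hQj⟩
    · exfalso
      simp only [Prod.mk.injEq, reduceCtorEq, false_and] at hh
    · exfalso
      simp only [Prod.mk.injEq] at hh
      obtain ⟨h1, h2⟩ := hh
      rcases hQi : Q i r' with _ | m1 <;> rcases hQj : Q j r' with _ | m2 <;>
        simp only [hQi, hQj, reduceCtorEq] at h1 h2
      exact hq r' hr' ⟨hQi, hQj⟩
    · simp only [Prod.mk.injEq, Sum.inr.injEq] at hh
      have h2 : r = r' := (hV i j hij).1 (by simp [hh.1, hh.2])
      subst h2; rfl
  · rintro ⟨(⟨a, m1⟩ | u), (⟨b, m2⟩ | v)⟩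
    · obtain ⟨B, hB⟩ := hcij.2 (a, b)
      simp only [Prod.mk.injEq] at hB
      by_cases hr : c none B ∈ Set.range g
      · obtain ⟨u, hu⟩ := hr
        obtain ⟨r, hr⟩ := (hQ i j hij).2 (some m1, some m2)
        simp only [Prod.mk.injEq] at hr
        refine ⟨Sum.inr (Sum.inl (⟨(B, u), hu.symm⟩, ⟨r, ?_⟩)), ?_⟩
        · rintro rfl
          simp [hq0] at hr
        · simp [hr.1, hr.2, hB.1, hB.2]
      · obtain ⟨r, hr'⟩ := (hP i j hij).2 (m1, m2)
        simp only [Prod.mk.injEq] at hr'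
        exact ⟨Sum.inl (⟨B, hr⟩, r), by simp [hr'.1, hr'.2, hB.1, hB.2]⟩
    · obtain ⟨B, hB⟩ := hci.2 (a, g v)
      simp only [Prod.mk.injEq] at hB
      obtain ⟨r, hr⟩ := (hQ i j hij).2 (some m1, none)
      simp only [Prod.mk.injEq] at hr
      refine ⟨Sum.inr (Sum.inl (⟨(B, v), hB.2⟩, ⟨r, ?_⟩)), ?_⟩
      · rintro rfl
        simp [hq0] at hr
      · simp [hr.1, hr.2, hB.1]
    · obtain ⟨B, hB⟩ := hcj.2 (g u, b)
      simp only [Prod.mk.injEq] at hB
      obtain ⟨r, hr⟩ := (hQ i j hij).2 (none, some m2)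
      simp only [Prod.mk.injEq] at hr
      refine ⟨Sum.inr (Sum.inl (⟨(B, u), hB.1⟩, ⟨r, ?_⟩)), ?_⟩
      · rintro rfl
        simp [hq0] at hr
      · simp [hr.1, hr.2, hB.2]
    · obtain ⟨r, hr⟩ := (hV i j hij).2 (u, v)
      simp only [Prod.mk.injEq] at hr
      exact ⟨Sum.inr (Sum.inr r), by simp [hr.1, hr.2]⟩

end Pool.VarCube
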