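import Pool.Agent.H96.VAR.Def
import Pool.Agent.H96.VAR.OA

/-!
# The path construction

From two orthogonal latin squares over `α` we get, for every `m ≥ 3`, a variational set of
`m + 1` permutation cubes of dimension `m` over `α`.
-/

namespace Pool.VarCube

open Function

/-- Two orthogonal latin squares. -/
structure Pair (α : Type) where
  /-- first square -/
  A : α → α → α
  /-- second square -/
  B : α → α → α
  Al : ∀ a, Bijective fun b => A a b
  Ar : ∀ b, Bijective fun a => A a b
  Bl : ∀ a, Bijective fun b => B a b
  Br : ∀ b, Bijective fun a => B a b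
  AB : Bijective fun p : α × α => (A p.1 p.2, B p.1 p.2)

lemma OA.pair {α : Type} (h : OA (Fin 4) α) : Nonempty (Pair α) := by
  obtain ⟨R, c, hc⟩ := h
  have h01 := hc 0 1 (by decide)
  let e : R ≃ α × α := Equiv.ofBijective _ h01
  have he0 : ∀ p : α × α, c 0 (e.symm p) = p.1 := fun p => by
    have := e.apply_symm_apply p
    exact congrArg Prod.fst this
  have he1 : ∀ p : α × α, c 1 (e.symm p) = p.2 := fun p => by
    have := e.apply_symm_apply p
    exact congrArg Prod.snd this
  -- a column other than 0 is bijective on the rows with fixed c 0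
  have hl : ∀ k, (0 : Fin 4) ≠ k → ∀ a, (1 : Fin 4) ≠ k →
      Bijective fun b => c k (e.symm (a, b)) := by
    intro k hk a hk1
    refine ⟨?_, ?_⟩
    · intro b b' hb
      have h1 : e.symm (a, b) = e.symm (a, b') := (hc 0 k hk).1 (by
        simp only [Prod.mk.injEq]
        exact ⟨by rw [he0, he0], hb⟩)
      have h2 := e.symm.injective h1
      simpa using h2
    · intro s
      obtain ⟨r, hr⟩ := (hc 0 k hk).2 (a, s)
      simp only [Prod.mk.injEq] at hr
      refine ⟨c 1 r, ?_⟩
      have : e.symm (a, c 1 r) = r := by
        rw [Equiv.symm_apply_eq]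
        change (a, c 1 r) = (c 0 r, c 1 r)
        rw [hr.1]
      simp only [this, hr.2]
  have hr : ∀ k, (0 : Fin 4) ≠ k → ∀ b, (1 : Fin 4) ≠ k →
      Bijective fun a => c k (e.symm (a, b)) := by
    intro k hk b hk1
    refine ⟨?_, ?_⟩
    · intro a a' ha
      have h1 : e.symm (a, b) = e.symm (a', b) := (hc 1 k hk1).1 (by
        simp only [Prod.mk.injEq]
        exact ⟨by rw [he1, he1], ha⟩)
      have h2 := e.symm.injective h1
      simpa using h2
    · intro s
      obtain ⟨r, hr⟩ := (hc 1 k hk1).2 (b, s)
      simp only [Prod.mk.injEq] at hr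
      refine ⟨c 0 r, ?_⟩
      have : e.symm (c 0 r, b) = r := by
        rw [Equiv.symm_apply_eq]
        change (c 0 r, b) = (c 0 r, c 1 r)
        rw [hr.1]
      simp only [this, hr.2]
  exact ⟨{
    A := fun a b => c 2 (e.symm (a, b))
    B := fun a b => c 3 (e.symm (a, b))
    Al := fun a => hl 2 (by decide) a (by decide)
    Ar := fun a => hr 2 (by decide) a (by decide)
    Bl := fun a => hl 3 (by decide) a (by decide)
    Br := fun a => hr 3 (by decide) a (by decide)
    AB := (hc 2 3 (by decide)).comp e.symm.bijective }⟩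

/-- A variational cube over `α` with index set `ι`. -/
def VC (ι α : Type) [DecidableEq ι] : Prop :=
  ∃ C : ι → (ι → α) → α, (∀ j, IsPermCube (C j)) ∧ Bijective fun (x : ι → α) (i : ι) => C i x

lemma VC.equiv {ι ι' α : Type} [DecidableEq ι] [DecidableEq ι'] (h : VC ι α) (e : ι ≃ ι') :
    VC ι' α := by
  obtain ⟨C, hC, hb⟩ := h
  refine ⟨fun i x => C (e.symm i) (fun j => x (e j)), ?_, ?_⟩
  · intro j x i
    have h1 := hC (e.symm j) (fun j => x (e j)) (e.symm i)
    have h2 : (fun a => C (e.symm j) (update (fun j => x (e j)) (e.symm i) a))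
        = fun a => C (e.symm j) (fun k => update x i a (e k)) := by
      funext a
      congr 1
      funext k
      by_cases hk : k = e.symm i
      · subst hk; simp
      · rw [update_of_ne hk, update_of_ne]
        intro h3
        exact hk (by rw [← h3]; simp)
    rw [h2] at h1
    exact h1
  · have h1 : (fun (x : ι' → α) (i : ι') => C (e.symm i) (fun j => x (e j)))
        = (fun y : ι → α => fun i => y (e.symm i)) ∘ (fun (x : ι → α) (i : ι) => C i x) ∘
          (fun x : ι' → α => fun j => x (e j)) := rfl
    rw [h1]
    refine Bijective.comp ?_ (Bijective.comp hb ?_)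
    · exact (Equiv.arrowCongr e (Equiv.refl α)).bijective
    · exact (Equiv.arrowCongr e.symm (Equiv.refl α)).bijective

lemma IsVarSet.equivDim {ι ι' κ α : Type} [DecidableEq ι] [DecidableEq ι'] (e : ι ≃ ι')
    {C : κ → (ι → α) → α} (h : IsVarSet C) :
    IsVarSet fun j (x : ι' → α) => C j (fun i => x (e i)) := by
  refine ⟨?_, ?_⟩
  · intro j x i
    have h1 := h.1 j (fun j => x (e j)) (e.symm i)
    have h2 : (fun a => C j (update (fun j => x (e j)) (e.symm i) a))
        = fun a => C j (fun k => update x i a (e k)) := by
      funext a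
      congr 1
      funext k
      by_cases hk : k = e.symm i
      · subst hk; simp
      · rw [update_of_ne hk, update_of_ne]
        intro h3
        exact hk (by rw [← h3]; simp)
    rw [h2] at h1
    exact h1
  · intro g hg
    have h0 := h.2 (fun i => g (e i)) (hg.comp e.injective)
    have h1 : (fun (x : ι' → α) (i : ι') => C (g i) (fun j => x (e j)))
        = (fun y : ι → α => fun i => y (e.symm i)) ∘
          (fun (x : ι → α) (i : ι) => C (g (e i)) x) ∘
          (fun x : ι' → α => fun j => x (e j)) := by
      funext x i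
      simp
    rw [h1]
    refine Bijective.comp ?_ (Bijective.comp h0 ?_)
    · exact (Equiv.arrowCongr e (Equiv.refl α)).bijective
    · exact (Equiv.arrowCongr e.symm (Equiv.refl α)).bijective

/-- Change of symbols. -/
lemma IsVarSet.equivSym {ι κ α β : Type} [DecidableEq ι] (f : α ≃ β)
    {C : κ → (ι → α) → α} (h : IsVarSet C) :
    IsVarSet fun j (x : ι → β) => f (C j (fun i => f.symm (x i))) := by
  refine ⟨?_, ?_⟩
  · intro j x i
    have h1 := h.1 j (fun i => f.symm (x i)) i
    have h2 : (fun a : β => f (C j (fun k => f.symm (update x i a k))))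
        = f ∘ (fun a : α => C j (update (fun i => f.symm (x i)) i a)) ∘ f.symm := by
      funext a
      simp only [comp_apply]
      congr 2
      funext k
      by_cases hk : k = i
      · subst hk; simp
      · rw [update_of_ne hk, update_of_ne hk]
    rw [h2]
    exact f.bijective.comp (h1.comp f.symm.bijective)
  · intro g hg
    have h0 := h.2 g hg
    have h1 : (fun (x : ι → β) (i : ι) => f (C (g i) (fun j => f.symm (x j))))
        = (fun y : ι → α => fun i => f (y i)) ∘ (fun (x : ι → α) (i : ι) => C (g i) x) ∘
          (fun x : ι → β => fun j => f.symm (x j)) := rfl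
    rw [h1]
    refine Bijective.comp ?_ (Bijective.comp h0 ?_)
    · exact (Equiv.arrowCongr (Equiv.refl ι) f).bijective
    · exact (Equiv.arrowCongr (Equiv.refl ι) f.symm).bijective

/-- The path construction: given variational cubes on the even and on the odd places, there
is a variational set of `m + 1` cubes. -/
theorem path {α : Type} [Finite α] (P : Pair α) (m : ℕ) (hm : 3 ≤ m)
    (hE : VC {i : Fin m // i.1 % 2 = 0} α) (hO : VC {i : Fin m // ¬ i.1 % 2 = 0} α) :
    ∃ C : Fin (m + 1) → (Fin m → α) → α, IsVarSet C := by
  classical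
  obtain ⟨U, hU, hUb⟩ := hE
  obtain ⟨V, hV, hVb⟩ := hO
  have hm0 : 0 < m := by omega
  -- inner variables
  let w : Fin m → (Fin m → α) → α := fun i x =>
    if h : i.1 % 2 = 0 then U ⟨i, h⟩ (fun j => x j.1) else V ⟨i, h⟩ (fun j => x j.1)
  have hw0 : ∀ i (h : i.1 % 2 = 0) x, w i x = U ⟨i, h⟩ (fun j => x j.1) := by
    intro i h x; simp only [w, dif_pos h]
  have hw1 : ∀ i (h : ¬ i.1 % 2 = 0) x, w i x = V ⟨i, h⟩ (fun j => x j.1) := by
    intro i h x; simp only [w, dif_neg h]
  -- w is injective
  have hwi : ∀ x y : Fin m → α, (∀ i, w i x = w i y) → x = y := by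
    intro x y hxy
    have h0 : (fun j : {i : Fin m // i.1 % 2 = 0} => x j.1) = fun j => y j.1 := by
      apply hUb.1
      funext i
      have := hxy i.1
      rw [hw0 i.1 i.2, hw0 i.1 i.2] at this
      exact this
    have h1 : (fun j : {i : Fin m // ¬ i.1 % 2 = 0} => x j.1) = fun j => y j.1 := by
      apply hVb.1
      funext i
      have := hxy i.1
      rw [hw1 i.1 i.2, hw1 i.1 i.2] at this
      exact this
    funext i
    by_cases hi : i.1 % 2 = 0
    · exact congrFun h0 ⟨i, hi⟩
    · exact congrFun h1 ⟨i, hi⟩
  -- behaviour under updates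
  have hupe : ∀ i (_ : i.1 % 2 = 0) x (k : Fin m) (_ : k.1 % 2 = 0),
      Bijective fun a => w i (update x k a) := by
    intro i hi x k hk
    have h1 := hU ⟨i, hi⟩ (fun j => x j.1) ⟨k, hk⟩
    have h2 : (fun a => w i (update x k a))
        = fun a => U ⟨i, hi⟩ (update (fun j => x j.1) ⟨k, hk⟩ a) := by
      funext a
      rw [hw0 i hi]
      congr 1
      funext j
      by_cases hj : j = ⟨k, hk⟩
      · subst hj; simp
      · rw [update_of_ne hj, update_of_ne]
        intro h3
        exact hj (Subtype.ext h3)
    rw [h2]
    exact h1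
  have hupo : ∀ i (_ : ¬ i.1 % 2 = 0) x (k : Fin m) (_ : ¬ k.1 % 2 = 0),
      Bijective fun a => w i (update x k a) := by
    intro i hi x k hk
    have h1 := hV ⟨i, hi⟩ (fun j => x j.1) ⟨k, hk⟩
    have h2 : (fun a => w i (update x k a))
        = fun a => V ⟨i, hi⟩ (update (fun j => x j.1) ⟨k, hk⟩ a) := by
      funext a
      rw [hw1 i hi]
      congr 1
      funext j
      by_cases hj : j = ⟨k, hk⟩
      · subst hj; simp
      · rw [update_of_ne hj, update_of_ne]
        intro h3
        exact hj (Subtype.ext h3)
    rw [h2]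
    exact h1
  have hupc : ∀ (i k : Fin m) x (a : α), ¬ (i.1 % 2 = 0 ↔ k.1 % 2 = 0) →
      w i (update x k a) = w i x := by
    intro i k x a hik
    by_cases hi : i.1 % 2 = 0
    · rw [hw0 i hi, hw0 i hi]
      congr 1
      funext j
      rw [update_of_ne]
      intro h3
      exact hik ⟨fun _ => by rw [← h3]; exact j.2, fun _ => hi⟩
    · rw [hw1 i hi, hw1 i hi]
      congr 1
      funext j
      rw [update_of_ne]
      intro h3
      exact hik ⟨fun h => absurd h hi, fun h => absurd (by rw [h3]; exact h) j.2⟩
  have hup : ∀ (i k : Fin m) x, (i.1 % 2 = 0 ↔ k.1 % 2 = 0) →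
      Bijective fun a => w i (update x k a) := by
    intro i k x hik
    by_cases hi : i.1 % 2 = 0
    · exact hupe i hi x k (hik.mp hi)
    · exact hupo i hi x k (fun h => hi (hik.mpr h))
  -- the latin property of a function of two consecutive inner variables
  have hlat : ∀ (L : α → α → α) (_ : ∀ a, Bijective fun b => L a b)
      (_ : ∀ b, Bijective fun a => L a b) (i j : Fin m), ¬ (i.1 % 2 = 0 ↔ j.1 % 2 = 0) →
      IsPermCube fun x : Fin m → α => L (w i x) (w j x) := by
    intro L hl hr i j hij x k
    by_cases hik : (i.1 % 2 = 0 ↔ k.1 % 2 = 0)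
    · have hjk : ¬ (j.1 % 2 = 0 ↔ k.1 % 2 = 0) := by tauto
      have h1 : (fun a => L (w i (update x k a)) (w j (update x k a)))
          = (fun b => L b (w j x)) ∘ fun a => w i (update x k a) := by
        funext a
        simp only [comp_apply, hupc j k x a hjk]
      rw [h1]
      exact (hr _).comp (hup i k x hik)
    · have hjk : (j.1 % 2 = 0 ↔ k.1 % 2 = 0) := by tauto
      have h1 : (fun a => L (w i (update x k a)) (w j (update x k a)))
          = (fun b => L (w i x) b) ∘ fun a => w j (update x k a) := by
        funext a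
        simp only [comp_apply, hupc i k x a hik]
      rw [h1]
      exact (hl _).comp (hup j k x hjk)
  -- the cubes
  let c : ℕ → Fin m := fun i => ⟨i % m, Nat.mod_lt _ hm0⟩
  have hc : ∀ i, i < m → (c i).1 = i := fun i hi => Nat.mod_eq_of_lt hi
  let Y : Fin (m + 1) → (Fin m → α) → α := fun j x =>
    if j.1 < m - 1 then P.A (w (c j.1) x) (w (c (j.1 + 1)) x)
    else if j.1 = m - 1 then P.B (w (c 0) x) (w (c 1) x)
    else P.B (w (c (m - 2)) x) (w (c (m - 1)) x)
  have hpar : ∀ i, i + 1 < m → ¬ ((c i).1 % 2 = 0 ↔ (c (i + 1)).1 % 2 = 0) := by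
    intro i hi
    rw [hc i (by omega), hc (i + 1) hi]
    omega
  refine ⟨Y, ?_, ?_⟩
  · intro j
    by_cases h1 : j.1 < m - 1
    · have : Y j = fun x => P.A (w (c j.1) x) (w (c (j.1 + 1)) x) := by
        funext x; simp only [Y, if_pos h1]
      rw [this]
      exact hlat P.A P.Al P.Ar _ _ (hpar _ (by omega))
    · by_cases h2 : j.1 = m - 1
      · have : Y j = fun x => P.B (w (c 0) x) (w (c 1) x) := by
          funext x; simp only [Y, if_neg h1, if_pos h2]
        rw [this]
        exact hlat P.B P.Bl P.Br _ _ (hpar 0 (by omega))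
      · have : Y j = fun x => P.B (w (c (m - 2)) x) (w (c (m - 1)) x) := by
          funext x; simp only [Y, if_neg h1, if_neg h2]
        rw [this]
        have h3 := hpar (m - 2) (by omega)
        rw [show m - 2 + 1 = m - 1 by omega] at h3
        exact hlat P.B P.Bl P.Br _ _ h3
  · intro e he
    refine (Finite.injective_iff_bijective).mp ?_
    intro x y hxy
    -- the missing index
    obtain ⟨r, hr⟩ : ∃ r : Fin (m + 1), ∀ j, j ≠ r → ∃ i, e i = j := by
      have h1 : (Finset.univ \ Finset.univ.image e : Finset (Fin (m + 1))).card = 1 := by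
        rw [Finset.card_sdiff_of_subset (Finset.subset_univ _), Finset.card_image_of_injective _ he]
        simp
      obtain ⟨r, hr⟩ := Finset.card_eq_one.mp h1
      refine ⟨r, fun j hj => ?_⟩
      by_contra hcon
      apply hj
      have : j ∈ (Finset.univ \ Finset.univ.image e : Finset (Fin (m + 1))) := by
        simp only [Finset.mem_sdiff, Finset.mem_univ, Finset.mem_image, true_and]
        exact hcon
      rw [hr] at this
      simpa using this
    have hY : ∀ j, j ≠ r → Y j x = Y j y := by
      intro j hj
      obtain ⟨i, hi⟩ := hr j hj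
      have := congrFun hxy i
      simp only [hi] at this
      exact this
    -- the edges
    have hA : ∀ i, i < m - 1 → i ≠ r.1 → P.A (w (c i) x) (w (c (i + 1)) x)
        = P.A (w (c i) y) (w (c (i + 1)) y) := by
      intro i hi hir
      have h1 := hY ⟨i, by omega⟩ (fun h => hir (congrArg Fin.val h))
      simpa only [Y, if_pos hi] using h1
    have hB0 : m - 1 ≠ r.1 → P.B (w (c 0) x) (w (c 1) x) = P.B (w (c 0) y) (w (c 1) y) := by
      intro hir
      have h1 := hY ⟨m - 1, by omega⟩ (fun h => hir (congrArg Fin.val h))
      simpa only [Y, lt_irrefl, if_false, if_true] using h1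
    have hB1 : m ≠ r.1 → P.B (w (c (m - 2)) x) (w (c (m - 1)) x)
        = P.B (w (c (m - 2)) y) (w (c (m - 1)) y) := by
      intro hir
      have h1 := hY ⟨m, by omega⟩ (fun h => hir (congrArg Fin.val h))
      simpa only [Y, if_neg (show ¬ m < m - 1 by omega), if_neg (show ¬ m = m - 1 by omega)]
        using h1
    have fA : ∀ i, w (c i) x = w (c i) y → P.A (w (c i) x) (w (c (i + 1)) x)
        = P.A (w (c i) y) (w (c (i + 1)) y) → w (c (i + 1)) x = w (c (i + 1)) y := by
      intro i h1 h2
      rw [h1] at h2
      exact (P.Al _).1 h2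
    have bA : ∀ i, w (c (i + 1)) x = w (c (i + 1)) y → P.A (w (c i) x) (w (c (i + 1)) x)
        = P.A (w (c i) y) (w (c (i + 1)) y) → w (c i) x = w (c i) y := by
      intro i h1 h2
      rw [h1] at h2
      exact (P.Ar _).1 h2
    have dbl : ∀ a b a' b', P.A a b = P.A a' b' → P.B a b = P.B a' b' → a = a' ∧ b = b' := by
      intro a b a' b' h1 h2
      have h3 : (a, b) = (a', b') := P.AB.1 (by simp only [h1, h2])
      simpa using h3
    -- forward and backward
    have fwd : r.1 ≠ 0 → r.1 ≠ m - 1 → ∀ i, i < m → (i ≤ r.1 ∨ r.1 = m ∨ r.1 = m - 2) →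
        w (c i) x = w (c i) y := by
      intro h0 h1 i
      induction i with
      | zero =>
        intro _ _
        exact (dbl _ _ _ _ (hA 0 (by omega) (Ne.symm h0)) (hB0 (Ne.symm h1))).1
      | succ i ih =>
        intro hi hir
        by_cases h2 : i = r.1
        · -- then r = m - 2 and the last edge is given by B
          have h3 : r.1 = m - 2 := by omega
          have h4 := ih (by omega) (by omega)
          have h5 := hB1 (by omega)
          rw [← h3, ← h2, show m - 1 = i + 1 by omega, h4] at h5
          exact (P.Bl _).1 h5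
        · exact fA i (ih (by omega) (by omega)) (hA i (by omega) h2)
    have bwd : r.1 ≠ m - 2 → r.1 ≠ m → ∀ d, d < m → (r.1 < m - 1 - d ∨ r.1 = 0 ∨ r.1 = m - 1) →
        w (c (m - 1 - d)) x = w (c (m - 1 - d)) y := by
      intro h0 h1 d
      induction d with
      | zero =>
        intro _ _
        have h2 := hA (m - 2) (by omega) (Ne.symm h0)
        rw [show m - 2 + 1 = m - 1 by omega] at h2
        exact (dbl _ _ _ _ h2 (hB1 (Ne.symm h1))).2
      | succ d ih =>
        intro hd hdr
        by_cases h2 : m - 1 - (d + 1) = r.1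
        · -- then r = 0
          have h3 : r.1 = 0 := by omega
          have h4 := ih (by omega) (by omega)
          have h5 := hB0 (by omega)
          rw [show m - 1 - d = 1 by omega] at h4
          rw [h4] at h5
          rw [h2, h3]
          exact (P.Br _).1 h5
        · have h4 := ih (by omega) (by omega)
          have h5 := hA (m - 1 - (d + 1)) (by omega) h2
          have h6 := bA (m - 1 - (d + 1))
          rw [show m - 1 - (d + 1) + 1 = m - 1 - d by omega] at h5 h6
          exact h6 h4 h5
    have hbw : r.1 ≠ m - 2 → r.1 ≠ m → ∀ i, i < m → (r.1 < i ∨ r.1 = 0 ∨ r.1 = m - 1) →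
        w (c i) x = w (c i) y := by
      intro h0 h1 i hi hir
      have h2 := bwd h0 h1 (m - 1 - i) (by omega) (by omega)
      rwa [show m - 1 - (m - 1 - i) = i by omega] at h2
    -- all inner variables agree
    apply hwi
    intro i
    have hci : c i.1 = i := Fin.ext (hc i.1 i.2)
    have hr2 := r.2
    have hi2 := i.2
    rw [← hci]
    by_cases k1 : r.1 = m - 2
    · exact fwd (by omega) (by omega) i.1 i.2 (by omega)
    · by_cases k2 : r.1 = m
      · exact fwd (by omega) (by omega) i.1 i.2 (by omega)
      · by_cases k3 : r.1 = 0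
        · exact hbw k1 k2 i.1 i.2 (by omega)
        · by_cases k4 : r.1 = m - 1
          · exact hbw k1 k2 i.1 i.2 (by omega)
          · by_cases k5 : i.1 ≤ r.1
            · exact fwd k3 k4 i.1 i.2 (by omega)
            · exact hbw k1 k2 i.1 i.2 (by omega)

/-- Variational cubes exist in every dimension as soon as there are two orthogonal squares. -/
theorem vc_all {α : Type} [Finite α] (P : Pair α) : ∀ (N : ℕ) (ι : Type) [Fintype ι]
    [DecidableEq ι], Fintype.card ι = N → VC ι α := by
  classical
  intro N
  induction N using Nat.strong_induction_on with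
  | _ N ih =>
    intro ι _ _ hN
    rcases Nat.lt_or_ge N 3 with h3 | h3
    · interval_cases N
      · have : IsEmpty ι := Fintype.card_eq_zero_iff.mp hN
        refine ⟨fun i => isEmptyElim i, fun j => isEmptyElim j, ?_, ?_⟩
        · intro x y _
          exact Subsingleton.elim _ _
        · intro y
          exact ⟨fun i => isEmptyElim i, Subsingleton.elim _ _⟩
      · obtain ⟨i0, hi0⟩ := Fintype.card_eq_one_iff.mp hN
        refine ⟨fun i x => x i, ?_, ?_⟩
        · intro j x i
          have h1 : j = i := by rw [hi0 j, hi0 i]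
          subst h1
          have h2 : (fun a : α => update x j a j) = id := by
            funext a
            simp
          change Bijective fun a : α => update x j a j
          rw [h2]
          exact bijective_id
        · exact bijective_id
      · have e : Fin 2 ≃ ι := (Fintype.equivFinOfCardEq hN).symm
        refine VC.equiv ?_ e
        refine ⟨fun i x => if i = 0 then P.A (x 0) (x 1) else P.B (x 0) (x 1), ?_, ?_⟩
        · intro j x i
          fin_cases j <;> fin_cases i
          · simpa [update_of_ne] using P.Ar (x 1)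
          · simpa [update_of_ne] using P.Al (x 0)
          · simpa [update_of_ne] using P.Br (x 1)
          · simpa [update_of_ne] using P.Bl (x 0)
        · refine (Finite.injective_iff_bijective).mp ?_
          intro x y hxy
          have h0 := congrFun hxy 0
          have h1 := congrFun hxy 1
          simp only [if_true] at h0
          simp only [show (1 : Fin 2) ≠ 0 by decide, if_false] at h1
          have h3 : (x 0, x 1) = (y 0, y 1) := P.AB.1 (by simp only [h0, h1])
          simp only [Prod.mk.injEq] at h3
          funext i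
          fin_cases i
          · exact h3.1
          · exact h3.2
    · have e : Fin N ≃ ι := (Fintype.equivFinOfCardEq hN).symm
      refine VC.equiv ?_ e
      have hcE : Fintype.card {i : Fin N // i.1 % 2 = 0} < N := by
        conv_rhs => rw [← Fintype.card_fin N]
        exact Fintype.card_subtype_lt (x := ⟨1, by omega⟩) (by simp)
      have hcO : Fintype.card {i : Fin N // ¬ i.1 % 2 = 0} < N := by
        conv_rhs => rw [← Fintype.card_fin N]
        exact Fintype.card_subtype_lt (x := ⟨0, by omega⟩) (by simp)
      obtain ⟨C, hC⟩ := path P N h3 (ih _ hcE _ rfl) (ih _ hcO _ rfl)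
      exact ⟨fun i => C i.castSucc, fun j => hC.1 _, hC.2 _ (Fin.castSucc_injective N)⟩

/-- `m + 1` cubes in every dimension `m ≥ 3`. -/
theorem lower {α : Type} [Finite α] (P : Pair α) (m : ℕ) (hm : 3 ≤ m) :
    ∃ C : Fin (m + 1) → (Fin m → α) → α, IsVarSet C := by
  classical
  exact path P m hm (vc_all P _ _ rfl) (vc_all P _ _ rfl)

end Pool.VarCube
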