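import Pool.Agent.H96.VAR.Up

/-!
# Dimension one less than the order: the upper bound

In an array of strength `m` and index one with `m + r` columns and `m + 1` symbols, the rows
at minimum distance from a given row, through two given values, form a Steiner system
S(r - 2, r - 1, m + r - 2) on the remaining columns.  Hence `r - 1` divides the binomial
coefficient `(m + r - 2).choose (r - 2)`.
-/

namespace Pool.VarCube

open Function

/-- Strength in terms of finite sets of columns. -/
lemma str_set {t k n : ℕ} {R : Type} {c : Fin k → R → Fin n}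
    (hc : ∀ e : Fin t → Fin k, Injective e → Bijective fun (r : R) (i : Fin t) => c (e i) r)
    (S : Finset (Fin k)) (hS : S.card = t) (v : Fin k → Fin n) :
    ∃! w : R, ∀ j ∈ S, c j w = v j := by
  let e : Fin t → Fin k := fun i => S.orderEmbOfFin hS i
  have he : Injective e := (S.orderEmbOfFin hS).injective
  have hmem : ∀ j, j ∈ S ↔ ∃ i, e i = j := by
    intro j
    have h1 := Finset.range_orderEmbOfFin S hS
    have h2 : j ∈ Set.range (S.orderEmbOfFin hS) ↔ j ∈ (S : Set (Fin k)) := by rw [h1]
    rw [← Finset.mem_coe, ← h2]
    rfl
  obtain ⟨w, hw⟩ := (hc e he).2 (fun i => v (e i))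
  refine ⟨w, ?_, ?_⟩
  · intro j hj
    obtain ⟨i, rfl⟩ := (hmem j).mp hj
    exact congrFun hw i
  · intro w' hw'
    apply (hc e he).1
    funext i
    have h1 := hw' (e i) ((hmem _).mpr ⟨i, rfl⟩)
    have h2 := congrFun hw i
    simp only at h2
    change c (e i) w' = c (e i) w
    rw [h1, h2]

/-- Agreement on at least `t` columns. -/
lemma eq_of_agree {t k n : ℕ} {R : Type} {c : Fin k → R → Fin n}
    (hc : ∀ e : Fin t → Fin k, Injective e → Bijective fun (r : R) (i : Fin t) => c (e i) r)
    (S : Finset (Fin k)) (hS : t ≤ S.card) {w w' : R} (h : ∀ j ∈ S, c j w = c j w') :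
    w = w' := by
  obtain ⟨S', hS', hc'⟩ := Finset.exists_subset_card_eq hS
  obtain ⟨x, -, hx⟩ := str_set hc S' hc' (fun j => c j w')
  rw [hx w (fun j hj => h j (hS' hj)), hx w' (fun j _ => rfl)]

theorem top_dvd {m r : ℕ} (hm : 1 ≤ m) (hr : 2 ≤ r) (h : Arr m (m + r) (m + 1)) :
    (r - 1) ∣ (m + r - 2).choose (r - 2) := by
  classical
  obtain ⟨R, c, hc⟩ := h
  let a : Fin (m + r) := ⟨0, by omega⟩
  let b : Fin (m + r) := ⟨1, by omega⟩
  have hab : a ≠ b := by simp [a, b]
  -- R is finite and not empty
  obtain ⟨S0, -, hS0⟩ := Finset.exists_subset_card_eq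
    (show m ≤ (Finset.univ : Finset (Fin (m + r))).card by simp)
  obtain ⟨r0, -, -⟩ := str_set hc S0 hS0 (fun _ => 0)
  have hR : Fintype R := by
    have h1 := hc (Fin.castLE (by omega)) (Fin.castLE_injective _)
    exact Fintype.ofEquiv _ (Equiv.ofBijective _ h1).symm
  have : Nontrivial (Fin (m + 1)) := Fin.nontrivial_iff_two_le.mpr (by omega)
  obtain ⟨x, hx⟩ := exists_ne (c a r0)
  obtain ⟨y, hy⟩ := exists_ne (c b r0)
  -- the support
  let supp : R → Finset (Fin (m + r)) := fun w => Finset.univ.filter fun j => c j w ≠ c j r0
  let B : Finset R := Finset.univ.filter fun w =>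
    c a w = x ∧ c b w = y ∧ (supp w).card = r + 1
  -- a row supported on `r + 1` columns and different from `r0` has support of that size
  have hfull : ∀ (T : Finset (Fin (m + r))) (w : R), T.card = r + 1 → w ≠ r0 →
      (∀ j, j ∉ T → c j w = c j r0) → supp w = T := by
    intro T w hT hw hj
    apply Finset.Subset.antisymm
    · intro j hj'
      simp only [supp, Finset.mem_filter, Finset.mem_univ, true_and] at hj'
      by_contra hcon
      exact hj' (hj j hcon)
    · intro j hjT
      simp only [supp, Finset.mem_filter, Finset.mem_univ, true_and]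
      intro hcon
      apply hw
      refine eq_of_agree hc (insert j Tᶜ) ?_ ?_
      · rw [Finset.card_insert_of_notMem (by simpa using hjT), Finset.card_compl, hT]
        simp
        omega
      · intro i hi
        rcases Finset.mem_insert.mp hi with rfl | hi
        · exact hcon
        · exact hj i (Finset.mem_compl.mp hi)
  -- existence
  have hex : ∀ A : Finset (Fin (m + r)), A.card = r → a ∈ A → b ∈ A →
      ∃ w ∈ B, A ⊆ supp w := by
    intro A hA ha hb
    have hAc : Fintype.card {j // j ∉ A} = m := by
      rw [Fintype.card_subtype_compl]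
      simp [hA]
    -- the rows w_j
    have hw : ∀ j : {j // j ∉ A}, ∃ w : R, c a w = x ∧
        ∀ i, i ∉ insert j.1 A → c i w = c i r0 := by
      intro j
      have hcard : (insert a (insert j.1 A)ᶜ).card = m := by
        rw [Finset.card_insert_of_notMem (by simp [ha]), Finset.card_compl,
          Finset.card_insert_of_notMem j.2, hA]
        simp
        omega
      obtain ⟨w, hw, -⟩ := str_set hc _ hcard (update (fun i => c i r0) a x)
      refine ⟨w, ?_, ?_⟩
      · have := hw a (Finset.mem_insert_self _ _)
        simpa using this
      · intro i hi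
        have h1 := hw i (Finset.mem_insert_of_mem (Finset.mem_compl.mpr hi))
        rwa [update_of_ne] at h1
        rintro rfl
        exact hi (Finset.mem_insert_of_mem ha)
    choose w hw1 hw2 using hw
    have hwne : ∀ j, w j ≠ r0 := by
      intro j hj
      apply hx
      rw [← hw1 j, hj]
    have hws : ∀ j, supp (w j) = insert j.1 A := fun j =>
      hfull _ _ (by rw [Finset.card_insert_of_notMem j.2, hA]) (hwne j) (hw2 j)
    let f : {j // j ∉ A} → {z // z ≠ c b r0} := fun j => ⟨c b (w j), by
      have h1 : b ∈ supp (w j) := by rw [hws j]; exact Finset.mem_insert_of_mem hb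
      simpa [supp] using h1⟩
    have hf : Injective f := by
      intro j j' hjj
      by_contra hne
      have hne' : j.1 ≠ j'.1 := fun h => hne (Subtype.ext h)
      have h1 : c b (w j) = c b (w j') := congrArg Subtype.val hjj
      have h2 : w j = w j' := by
        refine eq_of_agree hc (insert a (insert b (insert j.1 (insert j'.1 A))ᶜ)) ?_ ?_
        · rw [Finset.card_insert_of_notMem (by simp [ha, hab]),
            Finset.card_insert_of_notMem (by simp [hb]), Finset.card_compl,
            Finset.card_insert_of_notMem, Finset.card_insert_of_notMem j'.2, hA]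
          · simp
            omega
          · rw [Finset.mem_insert, not_or]
            exact ⟨hne', j.2⟩
        · intro i hi
          simp only [Finset.mem_insert, Finset.mem_compl, not_or] at hi
          rcases hi with rfl | rfl | hi
          · rw [hw1, hw1]
          · exact h1
          · rw [hw2 j i (by simp [hi.1, hi.2.2]), hw2 j' i (by simp [hi.2.1, hi.2.2])]
      have h3 := hws j
      rw [h2, hws j'] at h3
      have h4 : j.1 ∈ insert j'.1 A := by rw [h3]; exact Finset.mem_insert_self _ _
      rcases Finset.mem_insert.mp h4 with h5 | h5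
      · exact hne' h5
      · exact j.2 h5
    have hcb : Fintype.card {z // z ≠ c b r0} = m := by
      rw [Fintype.card_subtype_compl]
      simp
    have hfs : Surjective f :=
      ((Fintype.bijective_iff_injective_and_card f).mpr ⟨hf, by rw [hAc, hcb]⟩).2
    obtain ⟨j, hj⟩ := hfs ⟨y, hy⟩
    refine ⟨w j, ?_, ?_⟩
    · simp only [B, Finset.mem_filter, Finset.mem_univ, true_and]
      refine ⟨hw1 j, congrArg Subtype.val hj, ?_⟩
      rw [hws j, Finset.card_insert_of_notMem j.2, hA]
    · rw [hws j]
      exact Finset.subset_insert _ _
  -- uniqueness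
  have hun : ∀ A : Finset (Fin (m + r)), A.card = r → a ∈ A → b ∈ A → ∀ w ∈ B, ∀ w' ∈ B,
      A ⊆ supp w → A ⊆ supp w' → w = w' := by
    intro A hA ha hb w hw w' hw' hs hs'
    simp only [B, Finset.mem_filter, Finset.mem_univ, true_and] at hw hw'
    refine eq_of_agree hc (insert a (insert b (supp w ∪ supp w')ᶜ)) ?_ ?_
    · have h1 : (supp w ∪ supp w').card ≤ r + 2 := by
        have h2 := Finset.card_union_add_card_inter (supp w) (supp w')
        have h3 : A.card ≤ (supp w ∩ supp w').card :=
          Finset.card_le_card (Finset.subset_inter hs hs')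
        omega
      have hau : a ∈ supp w ∪ supp w' := Finset.mem_union_left _ (hs ha)
      have hbu : b ∈ supp w ∪ supp w' := Finset.mem_union_left _ (hs hb)
      rw [Finset.card_insert_of_notMem (by
        rw [Finset.mem_insert, Finset.mem_compl, not_or, not_not]; exact ⟨hab, hau⟩),
        Finset.card_insert_of_notMem (by rw [Finset.mem_compl, not_not]; exact hbu),
        Finset.card_compl]
      simp only [Fintype.card_fin]
      omega
    · intro i hi
      simp only [Finset.mem_insert, Finset.mem_compl, Finset.mem_union, not_or] at hi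
      rcases hi with rfl | rfl | ⟨hi, hi'⟩
      · rw [hw.1, hw'.1]
      · rw [hw.2.1, hw'.2.1]
      · simp only [supp, Finset.mem_filter, Finset.mem_univ, true_and, not_not] at hi hi'
        rw [hi, hi']
  -- double counting
  let V : Finset (Fin (m + r)) := {a, b}ᶜ
  have hV : V.card = m + r - 2 := by
    simp only [V]
    rw [Finset.card_compl, Finset.card_pair hab]
    simp
  have h1 : ∑ w ∈ B, ((Finset.powersetCard (r - 2) V).filter fun P => P ⊆ supp w).card
      = ∑ P ∈ Finset.powersetCard (r - 2) V, (B.filter fun w => P ⊆ supp w).card := by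
    simp only [Finset.card_filter]
    rw [Finset.sum_comm]
  have h2 : ∀ P ∈ Finset.powersetCard (r - 2) V, (B.filter fun w => P ⊆ supp w).card = 1 := by
    intro P hP
    rw [Finset.mem_powersetCard] at hP
    have haP : a ∉ P := fun h => by
      have := hP.1 h
      simp [V] at this
    have hbP : b ∉ P := fun h => by
      have := hP.1 h
      simp [V] at this
    let A := insert a (insert b P)
    have hA : A.card = r := by
      simp only [A]
      rw [Finset.card_insert_of_notMem (by
        rw [Finset.mem_insert, not_or]; exact ⟨hab, haP⟩),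
        Finset.card_insert_of_notMem hbP, hP.2]
      omega
    have hAs : ∀ w ∈ B, (A ⊆ supp w ↔ P ⊆ supp w) := by
      intro w hw
      simp only [B, Finset.mem_filter, Finset.mem_univ, true_and] at hw
      simp only [A, Finset.insert_subset_iff]
      constructor
      · exact fun h => h.2.2
      · intro h
        refine ⟨?_, ?_, h⟩
        · simp only [supp, Finset.mem_filter, Finset.mem_univ, true_and, hw.1]; exact hx
        · simp only [supp, Finset.mem_filter, Finset.mem_univ, true_and, hw.2.1]; exact hy
    obtain ⟨w, hw, hws⟩ := hex A hA (by simp [A]) (by simp [A])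
    rw [Finset.card_eq_one]
    refine ⟨w, ?_⟩
    ext w'
    rw [Finset.mem_filter, Finset.mem_singleton]
    constructor
    · rintro ⟨h3, h4⟩
      exact hun A hA (by simp [A]) (by simp [A]) w' h3 w hw ((hAs w' h3).mpr h4) hws
    · rintro rfl
      exact ⟨hw, (hAs _ hw).mp hws⟩
  have h3 : ∀ w ∈ B, ((Finset.powersetCard (r - 2) V).filter fun P => P ⊆ supp w).card
      = r - 1 := by
    intro w hw
    simp only [B, Finset.mem_filter, Finset.mem_univ, true_and] at hw
    have haw : a ∈ supp w := by
      simp only [supp, Finset.mem_filter, Finset.mem_univ, true_and, hw.1]; exact hx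
    have hbw : b ∈ supp w := by
      simp only [supp, Finset.mem_filter, Finset.mem_univ, true_and, hw.2.1]; exact hy
    have h4 : (Finset.powersetCard (r - 2) V).filter (fun P => P ⊆ supp w)
        = Finset.powersetCard (r - 2) (supp w ∩ V) := by
      ext P
      simp only [Finset.mem_filter, Finset.mem_powersetCard, Finset.subset_inter_iff]
      tauto
    have h5 : supp w ∩ V = supp w \ {a, b} := by
      ext j
      simp [V]
    have h6 : (supp w \ {a, b}).card = r - 1 := by
      rw [Finset.card_sdiff_of_subset (by
        intro j hj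
        rcases Finset.mem_insert.mp hj with rfl | hj
        · exact haw
        · rw [Finset.mem_singleton.mp hj]; exact hbw), Finset.card_pair hab, hw.2.2]
      omega
    rw [h4, h5, Finset.card_powersetCard, h6]
    rw [show r - 1 = (r - 2) + 1 by omega, Nat.choose_succ_self_right]
  rw [Finset.sum_congr rfl h3, Finset.sum_congr rfl h2] at h1
  simp only [Finset.sum_const, smul_eq_mul, mul_one, Finset.card_powersetCard, hV] at h1
  exact ⟨B.card, by rw [← h1, mul_comm]⟩

end Pool.VarCube
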