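import Pool.Agent.H96.VAR.Def

/-!
# Upper bounds

A variational set of `k` cubes of dimension `m` and order `n` is an orthogonal array of
strength `m` and index one with `k` columns.  Fixing columns reduces the strength; strength
two gives `k ≤ n + m - 1`, strength three gives `k ≤ n + m - 2` for odd `n`.
-/

namespace Pool.VarCube

open Function

/-- An array of strength `t` and index one, `k` columns, `n` symbols. -/
def Arr (t k n : ℕ) : Prop :=
  ∃ (R : Type) (c : Fin k → R → Fin n), ∀ e : Fin t → Fin k, Injective e →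
    Bijective fun (r : R) (i : Fin t) => c (e i) r

/-- Fixing a column of a given array. -/
lemma derive {t k n : ℕ} {R : Type} {c : Fin (k + 1) → R → Fin n}
    (hc : ∀ e : Fin (t + 1) → Fin (k + 1), Injective e →
      Bijective fun (r : R) (i : Fin (t + 1)) => c (e i) r) (j : Fin (k + 1)) (v : Fin n)
    (e : Fin t → Fin k) (he : Injective e) :
    Bijective fun (r : {r : R // c j r = v}) (i : Fin t) => c (j.succAbove (e i)) r.1 := by
  have h1 : Injective (Fin.cons j (fun i => j.succAbove (e i)) : Fin (t + 1) → Fin (k + 1)) := by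
    rw [Fin.cons_injective_iff]
    refine ⟨?_, (Fin.succAbove_right_injective).comp he⟩
    rintro ⟨i, hi⟩
    exact Fin.succAbove_ne j _ hi
  have h2 := hc _ h1
  refine ⟨?_, ?_⟩
  · rintro ⟨r, hr⟩ ⟨s, hs⟩ hrs
    have h3 : r = s := by
      apply h2.1
      funext i
      refine Fin.cases ?_ (fun i => ?_) i
      · simp only [Fin.cons_zero]; rw [hr, hs]
      · simp only [Fin.cons_succ]; exact congrFun hrs i
    subst h3; rfl
  · intro y
    obtain ⟨r, hr⟩ := h2.2 (Fin.cons v y)
    have h3 := congrFun hr 0
    simp only [Fin.cons_zero] at h3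
    refine ⟨⟨r, h3⟩, ?_⟩
    funext i
    have h4 := congrFun hr i.succ
    simpa only [Fin.cons_succ] using h4

lemma Arr.derive {t k n : ℕ} (hn : 0 < n) (h : Arr (t + 1) (k + 1) n) : Arr t k n := by
  obtain ⟨R, c, hc⟩ := h
  exact ⟨{r : R // c 0 r = ⟨0, hn⟩}, fun j r => c ((0 : Fin (k + 1)).succAbove j) r.1,
    fun e he => VarCube.derive hc 0 ⟨0, hn⟩ e he⟩

lemma Arr.derives {t k n : ℕ} (hn : 0 < n) : ∀ s, Arr (t + s) (k + s) n → Arr t k n
  | 0, h => h
  | s + 1, h => Arr.derives hn s (Arr.derive (t := t + s) (k := k + s) hn h)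

/-- In strength two with `n + 1` columns any two different rows agree in some column, and
there are at most `n + 1` columns. -/
lemma two_aux {k n : ℕ} (hn : 2 ≤ n) {R : Type} {c : Fin k → R → Fin n}
    (hc : ∀ e : Fin 2 → Fin k, Injective e → Bijective fun (r : R) (i : Fin 2) => c (e i) r)
    (hk : n + 1 ≤ k) : k = n + 1 ∧ ∀ r s, r ≠ s → ∃ j, c j r = c j s := by
  classical
  let i0 : Fin k := ⟨0, by omega⟩
  let i1 : Fin k := ⟨1, by omega⟩
  -- pairs of columns
  have pair : ∀ i j, i ≠ j → Bijective fun r => (c i r, c j r) := by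
    intro i j hij
    have he : Injective (![i, j] : Fin 2 → Fin k) := by
      intro a b hab
      fin_cases a <;> fin_cases b <;> simp_all
    have h1 := hc _ he
    refine ⟨?_, ?_⟩
    · intro r s hrs
      simp only [Prod.mk.injEq] at hrs
      apply h1.1
      funext a
      fin_cases a
      · simpa using hrs.1
      · simpa using hrs.2
    · rintro ⟨a, b⟩
      obtain ⟨r, hr⟩ := h1.2 ![a, b]
      refine ⟨r, ?_⟩
      have h2 := congrFun hr 0
      have h3 := congrFun hr 1
      simp at h2 h3
      simp [h2, h3]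
  have h01 : i0 ≠ i1 := by simp [i0, i1]
  have hR : Fintype R := Fintype.ofEquiv _ (Equiv.ofBijective _ (pair i0 i1 h01)).symm
  have hcard : Fintype.card R = n * n := by
    rw [Fintype.card_congr (Equiv.ofBijective _ (pair i0 i1 h01))]
    simp
  have key : ∀ r0 : R, k * (n - 1) ≤ n * n - 1 ∧ (k = n + 1 → ∀ s, r0 ≠ s → ∃ j, c j r0 = c j s) := by
    intro r0
    let A : Fin k → Finset R := fun j => Finset.univ.filter fun r => c j r = c j r0 ∧ r ≠ r0
    have hA : ∀ j, (A j).card = n - 1 := by
      intro j
      obtain ⟨j', hj'⟩ : ∃ j', j ≠ j' := by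
        by_cases h : j = i0
        · exact ⟨i1, by rw [h]; exact h01⟩
        · exact ⟨i0, h⟩
      have h1 : (Finset.univ.filter fun r => c j r = c j r0).card = n := by
        have h2 : (Finset.univ.filter fun r => c j r = c j r0).card
            = (Finset.univ : Finset (Fin n)).card := by
          refine Finset.card_bij (fun r _ => c j' r) (fun _ _ => Finset.mem_univ _) ?_ ?_
          · intro a ha b hb hab
            simp only [Finset.mem_filter, Finset.mem_univ, true_and] at ha hb
            exact (pair j j' hj').1 (by simp only [ha, hb, hab])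
          · intro b _
            obtain ⟨r, hr⟩ := (pair j j' hj').2 (c j r0, b)
            simp only [Prod.mk.injEq] at hr
            exact ⟨r, by simp [hr.1], hr.2⟩
        rw [h2, Finset.card_univ, Fintype.card_fin]
      have h3 : A j = (Finset.univ.filter fun r => c j r = c j r0).erase r0 := by
        ext r
        simp only [A, Finset.mem_filter, Finset.mem_univ, true_and, Finset.mem_erase]
        tauto
      rw [h3, Finset.card_erase_of_mem (by simp), h1]
    have hdis : (↑(Finset.univ : Finset (Fin k)) : Set (Fin k)).PairwiseDisjoint A := by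
      intro i _ j _ hij
      rw [Function.onFun, Finset.disjoint_left]
      intro r hr hr'
      simp only [A, Finset.mem_filter, Finset.mem_univ, true_and] at hr hr'
      exact hr.2 ((pair i j hij).1 (by simp only [hr.1, hr'.1]))
    have hU : (Finset.univ.biUnion A) ⊆ Finset.univ.erase r0 := by
      intro r hr
      simp only [Finset.mem_biUnion, A, Finset.mem_filter, Finset.mem_univ, true_and] at hr
      obtain ⟨j, hj⟩ := hr
      simp [hj.2]
    have hcU : (Finset.univ.biUnion A).card = k * (n - 1) := by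
      rw [Finset.card_biUnion hdis]
      simp [hA]
    have hcE : (Finset.univ.erase r0).card = n * n - 1 := by
      rw [Finset.card_erase_of_mem (Finset.mem_univ _), Finset.card_univ, hcard]
    refine ⟨?_, ?_⟩
    · rw [← hcU, ← hcE]
      exact Finset.card_le_card hU
    · intro hk1 s hs
      have heq : Finset.univ.biUnion A = Finset.univ.erase r0 := by
        apply Finset.eq_of_subset_of_card_le hU
        rw [hcU, hcE, hk1]
        obtain ⟨n', rfl⟩ : ∃ n', n = n' + 1 := ⟨n - 1, by omega⟩
        have : (n' + 1) * (n' + 1) - 1 = (n' + 1 + 1) * (n' + 1 - 1) := by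
          have : (n' + 1) * (n' + 1) = (n' + 1 + 1) * n' + 1 := by ring
          rw [this]; simp
        rw [this]
      have hs' : s ∈ Finset.univ.biUnion A := by
        rw [heq]
        simp [Ne.symm hs]
      simp only [Finset.mem_biUnion, A, Finset.mem_filter, Finset.mem_univ, true_and] at hs'
      obtain ⟨j, hj⟩ := hs'
      exact ⟨j, hj.1.symm⟩
  obtain ⟨r0, -⟩ := (pair i0 i1 h01).2 (⟨0, by omega⟩, ⟨0, by omega⟩)
  have hk1 : k = n + 1 := by
    have h1 := (key r0).1
    have h2 : n * n - 1 = (n + 1) * (n - 1) := by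
      obtain ⟨n', rfl⟩ : ∃ n', n = n' + 1 := ⟨n - 1, by omega⟩
      have : (n' + 1) * (n' + 1) = (n' + 1 + 1) * n' + 1 := by ring
      rw [this]; simp
    rw [h2] at h1
    have := Nat.le_of_mul_le_mul_right h1 (by omega)
    omega
  exact ⟨hk1, fun r s hrs => (key r).2 hk1 s hrs⟩

/-- Strength two: at most `n + 1` columns. -/
lemma arr_two {k n : ℕ} (hn : 2 ≤ n) (h : Arr 2 k n) : k ≤ n + 1 := by
  by_contra hcon
  obtain ⟨R, c, hc⟩ := h
  have := (two_aux hn hc (by omega)).1
  omega

/-- Strength three with `n + 2` columns: `n` is even. -/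
lemma arr_three {n : ℕ} (hn : 2 ≤ n) (h : Arr 3 (n + 2) n) : Even n := by
  classical
  obtain ⟨R, c, hc⟩ := h
  -- triples of columns
  have tri : ∀ i j l, i ≠ j → i ≠ l → j ≠ l → Bijective fun r => (c i r, c j r, c l r) := by
    intro i j l hij hil hjl
    have he : Injective (![i, j, l] : Fin 3 → Fin (n + 2)) := by
      intro a b hab
      fin_cases a <;> fin_cases b <;> simp_all [Ne.symm hij, Ne.symm hil, Ne.symm hjl]
    have h1 := hc _ he
    refine ⟨?_, ?_⟩
    · intro r s hrs
      simp only [Prod.mk.injEq] at hrs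
      apply h1.1
      funext a
      fin_cases a
      · simpa using hrs.1
      · simpa using hrs.2.1
      · simpa using hrs.2.2
    · rintro ⟨a, b, d⟩
      obtain ⟨r, hr⟩ := h1.2 ![a, b, d]
      refine ⟨r, ?_⟩
      have h2 := congrFun hr 0
      have h3 := congrFun hr 1
      have h4 := congrFun hr 2
      simp at h2 h3 h4
      simp [h2, h3, h4]
  let i0 : Fin (n + 2) := ⟨0, by omega⟩
  let i1 : Fin (n + 2) := ⟨1, by omega⟩
  let i2 : Fin (n + 2) := ⟨2, by omega⟩
  have h01 : i0 ≠ i1 := by simp [i0, i1]
  have h02 : i0 ≠ i2 := by simp [i0, i2]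
  have h12 : i1 ≠ i2 := by simp [i1, i2]
  have hR : Fintype R := Fintype.ofEquiv _ (Equiv.ofBijective _ (tri i0 i1 i2 h01 h02 h12)).symm
  -- the number of agreements of two different rows is even
  have hev : ∀ r s : R, r ≠ s → Even (Finset.univ.filter fun j => c j r = c j s).card := by
    intro r s hrs
    set Z := Finset.univ.filter fun j => c j r = c j s with hZ
    by_cases hne : Z = ∅
    · rw [hne]; simp
    obtain ⟨i, hi⟩ := Finset.nonempty_iff_ne_empty.mpr hne
    have hi' : c i r = c i s := by simpa [hZ] using hi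
    -- another one
    obtain ⟨j, hj⟩ : ∃ j, c (i.succAbove j) r = c (i.succAbove j) s := by
      have h1 := (two_aux hn (R := {q : R // c i q = c i s})
        (c := fun j q => c (i.succAbove j) q.1)
        (fun e he => derive (t := 2) (k := n + 1) hc i (c i s) e he) le_rfl).2 ⟨r, hi'⟩ ⟨s, rfl⟩
        (fun h => hrs (congrArg Subtype.val h))
      exact h1
    have hij : i ≠ i.succAbove j := (Fin.succAbove_ne i j).symm
    have hZ2 : Z = {i, i.succAbove j} := by
      ext l
      simp only [hZ, Finset.mem_filter, Finset.mem_univ, true_and, Finset.mem_insert,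
        Finset.mem_singleton]
      constructor
      · intro hl
        by_contra hcon
        push Not at hcon
        apply hrs
        exact (tri i (i.succAbove j) l hij (Ne.symm hcon.1) (Ne.symm hcon.2)).1
          (by simp only [hi', hj, hl])
      · rintro (rfl | rfl)
        · exact hi'
        · exact hj
    rw [hZ2, Finset.card_pair hij]
    exact even_two
  obtain ⟨r0, -⟩ := (tri i0 i1 i2 h01 h02 h12).2 (⟨0, by omega⟩, ⟨0, by omega⟩, ⟨0, by omega⟩)
  have : Nontrivial (Fin n) := Fin.nontrivial_iff_two_le.mpr hn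
  obtain ⟨a, ha⟩ := exists_ne (c i0 r0)
  obtain ⟨b, hb⟩ := exists_ne (c i1 r0)
  let W : Finset R := Finset.univ.filter fun r => c i0 r = a ∧ c i1 r = b
  have h1 : ∑ r ∈ W, (Finset.univ.filter fun j => c j r = c j r0).card
      = ∑ j : Fin (n + 2), (W.filter fun r => c j r = c j r0).card := by
    simp only [Finset.card_filter]
    rw [Finset.sum_comm]
  have h2 : ∀ j : Fin (n + 2), (W.filter fun r => c j r = c j r0).card
      = if j = i0 ∨ j = i1 then 0 else 1 := by
    intro j
    split_ifs with hj
    · rw [Finset.card_eq_zero, Finset.filter_eq_empty_iff]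
      intro r hr
      simp only [W, Finset.mem_filter, Finset.mem_univ, true_and] at hr
      rcases hj with rfl | rfl
      · rw [hr.1]; exact ha
      · rw [hr.2]; exact hb
    · push Not at hj
      rw [Finset.card_eq_one]
      obtain ⟨r, hr⟩ := (tri i0 i1 j h01 (Ne.symm hj.1) (Ne.symm hj.2)).2 (a, b, c j r0)
      simp only [Prod.mk.injEq] at hr
      refine ⟨r, ?_⟩
      ext s
      simp only [W, Finset.mem_filter, Finset.mem_univ, true_and, Finset.mem_singleton]
      constructor
      · rintro ⟨⟨h3, h4⟩, h5⟩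
        exact (tri i0 i1 j h01 (Ne.symm hj.1) (Ne.symm hj.2)).1
          (by simp only [h3, h4, h5, hr.1, hr.2.1, hr.2.2])
      · rintro rfl
        exact ⟨⟨hr.1, hr.2.1⟩, hr.2.2⟩
  have h3 : ∑ j : Fin (n + 2), (if j = i0 ∨ j = i1 then 0 else 1) = n := by
    have h4 : ∑ j : Fin (n + 2), (if j = i0 ∨ j = i1 then 0 else 1)
        = (Finset.univ.filter fun j : Fin (n + 2) => ¬ (j = i0 ∨ j = i1)).card := by
      rw [Finset.card_filter]
      refine Finset.sum_congr rfl fun j _ => ?_
      split_ifs <;> rfl
    rw [h4, Finset.filter_not, Finset.card_sdiff_of_subset (Finset.filter_subset _ _)]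
    have h5 : (Finset.univ.filter fun j : Fin (n + 2) => j = i0 ∨ j = i1) = {i0, i1} := by
      ext j; simp
    rw [h5, Finset.card_pair h01]
    simp
  have h4 : Even (∑ r ∈ W, (Finset.univ.filter fun j => c j r = c j r0).card) := by
    refine Finset.even_sum _ fun r hr => hev r r0 ?_
    rintro rfl
    simp only [W, Finset.mem_filter, Finset.mem_univ, true_and] at hr
    exact ha hr.1.symm
  rw [h1, Finset.sum_congr rfl (fun j _ => h2 j), h3] at h4
  exact h4

lemma IsVarSet.arr {m n k : ℕ} {C : Fin k → (Fin m → Fin n) → Fin n} (h : IsVarSet C) :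
    Arr m k n := ⟨_, C, h.2⟩

lemma Arr.restrict {t k k' n : ℕ} (h : Arr t k n) (hk : k' ≤ k) : Arr t k' n := by
  obtain ⟨R, c, hc⟩ := h
  exact ⟨R, fun j => c (Fin.castLE hk j), fun e he => hc _ ((Fin.castLE_injective hk).comp he)⟩

/-- `k ≤ n + m - 1`. -/
theorem card_le_add {m n k : ℕ} (hn : 2 ≤ n) (hm : 2 ≤ m)
    (C : Fin k → (Fin m → Fin n) → Fin n) (h : IsVarSet C) : k ≤ n + m - 1 := by
  by_contra hcon
  have h1 : Arr (2 + (m - 2)) ((n + 2) + (m - 2)) n := by
    have h2 := h.arr.restrict (k' := n + 2 + (m - 2)) (by omega)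
    rwa [show 2 + (m - 2) = m by omega]
  have h3 := arr_two hn (Arr.derives (by omega) (m - 2) h1)
  omega

/-- `k ≤ n + m - 2` for odd `n` and `m ≥ 3`. -/
theorem card_le_odd {m n k : ℕ} (hn : 2 ≤ n) (hm : 3 ≤ m) (ho : Odd n)
    (C : Fin k → (Fin m → Fin n) → Fin n) (h : IsVarSet C) : k ≤ n + m - 2 := by
  by_contra hcon
  have h1 : Arr (3 + (m - 3)) ((n + 2) + (m - 3)) n := by
    have h2 := h.arr.restrict (k' := n + 2 + (m - 3)) (by omega)
    rwa [show 3 + (m - 3) = m by omega]
  have h3 := arr_three hn (Arr.derives (by omega) (m - 3) h1)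
  exact (Nat.not_even_iff_odd.mpr ho) h3

end Pool.VarCube
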